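import Pool.Agent.N190.JM.Weyl

/-!
# Lie isomorphisms of degree zero: graded isomorphisms compatible with products
-/

open CategoryTheory AlgebraicGeometry Finset

universe u v

namespace Pool.Agent.N190.JM

open Pool.Agent.H914 Pool.Agent.N190.Opp VarClass Obj WeilCohomology Pool.Agent.W498.Dom
  Pool.Agent.N190.JL

variable {k : Type u} [Field k] {𝒱 : VarClass k} {ops : CycleOps 𝒱}
  {W : WeilCohomology.{u, v} ops} {X Y : 𝒱.Obj} {D : X.Cycles} {E : Y.Cycles}
  {g : Submodule W.K (Module.End W.K (W.H X))} {g' : Submodule W.K (Module.End W.K (W.H Y))}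
  {T : W.H X →ₗ[W.K] W.H Y} {T' : W.H Y →ₗ[W.K] W.H X}

lemma hop_apply {i : ℕ} {a : W.H X} (ha : a ∈ W.gr X i) :
    hop W X a = ((i : W.K) - X.dim) • a := by
  rw [show hop W X a = ((node X.dim i : ℚ) : W.K) • a from scal_apply (W.isInternal X) _ ha]
  congr 1
  unfold node
  push_cast; ring

/-- An operator commuting with the degree operators preserves the degrees. -/
lemma mem_of_comm (hdim : X.dim = Y.dim) (h : ∀ x, T (hop W X x) = hop W Y (T x)) {i : ℕ}
    {a : W.H X} (ha : a ∈ W.gr X i) : T a ∈ W.gr Y i := by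
  have h1 : hop W Y (T a) = ((i : W.K) - X.dim) • T a := by
    rw [← h, hop_apply ha, map_smul]
  have h2 : ∀ j, j ≠ i → proj (W.isInternal Y) j (T a) = 0 := by
    intro j hj
    have e1 : proj (W.isInternal Y) j (hop W Y (T a)) =
        ((j : W.K) - Y.dim) • proj (W.isInternal Y) j (T a) := by
      have h3 : IsHom (W.gr Y) 0 (hop W Y) := isHom_scal _ _
      have h4 := LinearMap.congr_fun (h3.proj_comm (W.isInternal Y) j) (T a)
      rw [Module.End.mul_apply, Module.End.mul_apply] at h4
      rw [h4, hop_apply (proj_mem _ _ _)]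
    rw [h1, map_smul] at e1
    have e2 : ((i : W.K) - j) • proj (W.isInternal Y) j (T a) = 0 := by
      have : ((i : W.K) - j) • proj (W.isInternal Y) j (T a) =
          ((i : W.K) - X.dim) • proj (W.isInternal Y) j (T a) -
          ((j : W.K) - Y.dim) • proj (W.isInternal Y) j (T a) := by
        rw [hdim]; module
      rw [this, e1, sub_self]
    rcases smul_eq_zero.1 e2 with h5 | h5
    · exfalso
      apply hj
      have : (i : W.K) = j := sub_eq_zero.1 h5
      exact_mod_cast this.symm
    · exact h5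
  have h3 : T a = proj (W.isInternal Y) i (T a) := by
    apply eq_of_proj
    intro j
    by_cases hj : j = i
    · subst hj
      rw [proj_same _ (proj_mem _ _ _)]
    · rw [h2 j hj, proj_ne (W.isInternal Y) (proj_mem (W.isInternal Y) i (T a)) (Ne.symm hj)]
  rw [h3]
  exact proj_mem _ _ _

/-- A mixed operator of degree zero is given by cycles of codimension `dim X`. -/
lemma kop_of_comm (hT : T ∈ KMix W X Y) (h : ∀ i, ∀ a ∈ W.gr X i, T a ∈ W.gr Y i) :
    T ∈ KOp W X Y 0 := by
  obtain ⟨v, hv, hvu⟩ := KMix.exists_component hT 0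
  have h1 : T = v := by
    apply gr_ext (W.isInternal X)
    intro i a ha
    rw [hvu i i (by simp) a ha, proj_same _ (h i a ha)]
  rw [h1]; exact hv

/-- The inverse of an operator which preserves the degrees preserves the degrees. -/
lemma eq_gr_of_inj {S : W.H X →ₗ[W.K] W.H Y} {S' : W.H Y →ₗ[W.K] W.H X}
    (h : ∀ i, ∀ a ∈ W.gr X i, S a ∈ W.gr Y i) (h1 : ∀ y, S (S' y) = y) (h2 : ∀ x, S' (S x) = x)
    {i : ℕ} {a : W.H Y} (ha : a ∈ W.gr Y i) : S' a ∈ W.gr X i := by
  have key : ∀ (x : W.H X) (j : ℕ), S (proj (W.isInternal X) j x) =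
      proj (W.isInternal Y) j (S x) := by
    intro x j
    refine gr_induction (W.isInternal X) (p := fun x => S (proj (W.isInternal X) j x) =
      proj (W.isInternal Y) j (S x)) ?_ ?_ x
    · intro l x hx
      by_cases hl : l = j
      · subst hl
        rw [proj_same _ hx, proj_same _ (h l x hx)]
      · rw [proj_ne _ hx hl, proj_ne _ (h l x hx) hl, map_zero]
    · intro x y hx hy
      rw [map_add, map_add, map_add, map_add, hx, hy]
  have h3 : S' a = proj (W.isInternal X) i (S' a) := by
    have h4 := key (S' a) i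
    rw [h1, proj_same _ ha] at h4
    rw [← h2 (proj (W.isInternal X) i (S' a)), h4]
  rw [h3]
  exact proj_mem _ _ _

/-- **The graded isomorphism, compatible with the products with the classes in `g`.** -/
theorem exists_mult {F : Module.End W.K (W.H X)} {F' : Module.End W.K (W.H Y)}
    (hdim : X.dim = Y.dim) (G : Good W X D g F)
    (G' : Good W Y E g' F') (hT : LieIso W X Y g g' T T')
    (h : ∀ x, T (hop W X x) = hop W Y (T x)) :
    ∃ (S : W.H X →ₗ[W.K] W.H Y) (S' : W.H Y →ₗ[W.K] W.H X), LieIso W X Y g g' S S' ∧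
      (∀ i, ∀ a ∈ W.gr X i, S a ∈ W.gr Y i) ∧ S 1 = 1 ∧
      ∀ x y, x ∈ W.gr X 2 → LinearMap.mulLeft W.K x ∈ g → S (x * y) = S x * S y := by
  have hdeg : ∀ i, ∀ a ∈ W.gr X i, T a ∈ W.gr Y i := fun i a ha => mem_of_comm hdim h ha
  by_cases h10 : (1 : W.H Y) = 0
  · have hY : ∀ y : W.H Y, y = 0 := fun y => by rw [← one_mul y, h10, zero_mul]
    exact ⟨T, T', hT, hdeg, by rw [hY (T 1), h10], fun x y _ _ => by
      rw [hY (T (x * y)), hY (T x * T y)]⟩
  obtain ⟨c, hc⟩ : ∃ c : W.K, T 1 = c • (1 : W.H Y) := by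
    have h1 : T 1 ∈ W.gr Y 0 := hdeg 0 1 (W.one_mem X)
    rw [W.gr_zero, Submodule.mem_span_singleton] at h1
    obtain ⟨c, hc⟩ := h1
    exact ⟨c, hc.symm⟩
  have h1X : (1 : W.H X) ≠ 0 := by
    intro h0
    have hX : ∀ x : W.H X, x = 0 := fun x => by rw [← one_mul x, h0, zero_mul]
    apply h10
    have := hT.uv 1
    rw [hX (T' 1), map_zero] at this
    exact this.symm
  have hc0 : c ≠ 0 := by
    rintro rfl
    rw [zero_smul] at hc
    apply h1X
    have := hT.vu 1
    rw [hc, map_zero] at this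
    exact this.symm
  refine ⟨c⁻¹ • T, c • T', ⟨Submodule.smul_mem _ _ hT.alg, Submodule.smul_mem _ _ hT.alg', ?_, ?_,
    ?_, ?_⟩, fun i a ha => Submodule.smul_mem _ _ (hdeg i a ha), ?_, ?_⟩
  · apply LinearMap.ext
    intro x
    simp only [LinearMap.comp_apply, LinearMap.smul_apply, map_smul, hT.vu, LinearMap.id_apply,
      smul_smul, mul_inv_cancel₀ hc0, inv_mul_cancel₀ hc0, one_smul]
  · apply LinearMap.ext
    intro x
    simp only [LinearMap.comp_apply, LinearMap.smul_apply, map_smul, hT.uv, LinearMap.id_apply,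
      smul_smul, mul_inv_cancel₀ hc0, inv_mul_cancel₀ hc0, one_smul]
  · intro a ha
    have h1 : (c⁻¹ • T) ∘ₗ (a : W.H X →ₗ[W.K] W.H X) ∘ₗ (c • T') =
        T ∘ₗ (a : W.H X →ₗ[W.K] W.H X) ∘ₗ T' := by
      apply LinearMap.ext
      intro x
      simp only [LinearMap.comp_apply, LinearMap.smul_apply, map_smul, smul_smul,
        mul_inv_cancel₀ hc0, inv_mul_cancel₀ hc0, one_smul]
    rw [h1]
    exact hT.conj a ha
  · intro a ha
    have h1 : (c • T') ∘ₗ (a : W.H Y →ₗ[W.K] W.H Y) ∘ₗ (c⁻¹ • T) =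
        T' ∘ₗ (a : W.H Y →ₗ[W.K] W.H Y) ∘ₗ T := by
      apply LinearMap.ext
      intro x
      simp only [LinearMap.comp_apply, LinearMap.smul_apply, map_smul, smul_smul,
        mul_inv_cancel₀ hc0, inv_mul_cancel₀ hc0, one_smul]
    rw [h1]
    exact hT.conj' a ha
  · rw [LinearMap.smul_apply, hc, smul_smul, inv_mul_cancel₀ hc0, one_smul]
  · intro x y hx hxg
    have h1 : cj T T' (LinearMap.mulLeft W.K x) ∈ part W Y g' 2 := by
      refine ⟨hT.conj _ hxg, ?_⟩
      intro i b hb
      by_cases hi : 0 ≤ i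
      · lift i to ℕ using hi
        rw [grZ_natCast] at hb
        have h' : ∀ y, T' (hop W Y y) = hop W X (T' y) := by
          intro y
          have := h (T' y)
          rw [hT.uv] at this
          rw [← this, hT.vu]
        have h2 : T' b ∈ W.gr X i := mem_of_comm hdim.symm h' hb
        have h3 := hdeg _ _ (W.mul_mem hx h2)
        rw [show ((i : ℤ) + 2) = ((2 + i : ℕ) : ℤ) by push_cast; ring, grZ_natCast]
        exact h3
      · rw [grZ_of_neg (by omega)] at hb
        rw [(Submodule.mem_bot _).1 hb, map_zero]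
        exact Submodule.zero_mem _
    obtain ⟨x', -, hx'⟩ := part_two G'.hg h1
    have h2 : ∀ y, T (x * y) = x' * T y := by
      intro y
      have := LinearMap.congr_fun hx' (T y)
      rw [cj_apply, hT.vu, LinearMap.mulLeft_apply, LinearMap.mulLeft_apply] at this
      exact this
    have h3 : T x = c • x' := by
      have := h2 1
      rw [mul_one, hc, mul_smul_comm, mul_one] at this
      exact this
    rw [LinearMap.smul_apply, LinearMap.smul_apply, LinearMap.smul_apply, h2, h3, smul_smul,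
      inv_mul_cancel₀ hc0, one_smul, mul_smul_comm]

end Pool.Agent.N190.JM
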