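import Pool.Agent.N190.JM.Grad

/-!
# Lie isomorphisms of non-zero rank up to algebraic elements
-/

open CategoryTheory AlgebraicGeometry Finset
open IsNilpotent (exp exp_eq_sum)

universe u v

namespace Pool.Agent.N190.JM

open Pool.Agent.H914 Pool.Agent.N190.Opp VarClass Obj WeilCohomology Pool.Agent.W498.Dom
  Pool.Agent.N190.JL

section Polar

open Polynomial

variable {K : Type*} [Field K] [CharZero K] {V : Type*} [AddCommGroup V] [Module K V]

lemma lin_coeff_fun {f h : Module.End K V} (hc : Commute f h) {v : V} {m : ℕ} (φ : V →ₗ[K] K)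
    (h0 : ∀ t : K, φ (((f + t • h) ^ (m + 1)) v) = 0) : φ ((f ^ m) (h v)) = 0 := by
  set p : K[X] := ∑ i ∈ range (m + 1 + 1),
    C (((m + 1).choose i : K) * φ ((f ^ i * h ^ (m + 1 - i)) v)) * X ^ (m + 1 - i) with hp
  have hp0 : p = 0 := by
    apply Polynomial.funext
    intro t
    have h1 := h0 t
    have hct : Commute f (t • h) := hc.smul_right t
    rw [hct.add_pow, LinearMap.sum_apply, map_sum] at h1
    rw [hp, eval_finsetSum, eval_zero, ← h1]
    apply Finset.sum_congr rfl
    intro i _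
    rw [eval_mul, eval_C, eval_pow, eval_X, _root_.smul_pow, mul_smul_comm]
    have h2 : ((t ^ (m + 1 - i) • (f ^ i * h ^ (m + 1 - i)) *
        (((m + 1).choose i : ℕ) : Module.End K V)) : Module.End K V) =
        (((m + 1).choose i : K) * t ^ (m + 1 - i)) • (f ^ i * h ^ (m + 1 - i)) := by
      rw [(Nat.cast_commute _ _).symm.eq, ← nsmul_eq_mul, ← Nat.cast_smul_eq_nsmul K, smul_smul]
    rw [h2, LinearMap.smul_apply, map_smul, smul_eq_mul]
    ring
  have h1 := congrArg (fun q => q.coeff 1) hp0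
  simp only [hp, finsetSum_coeff, coeff_C_mul, coeff_X_pow, coeff_zero] at h1
  rw [Finset.sum_eq_single m] at h1
  · rw [show m + 1 - m = 1 by omega, if_pos rfl, mul_one, pow_one] at h1
    rcases mul_eq_zero.1 h1 with h2 | h2
    · exfalso
      rw [Nat.choose_succ_self_right] at h2
      exact (Nat.cast_ne_zero (R := K)).2 (Nat.succ_ne_zero m) h2
    · exact h2
  · intro i hi him
    have := Finset.mem_range.1 hi
    rw [if_neg (by omega), mul_zero]
  · intro h; exact absurd (Finset.mem_range.2 (by omega)) h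

lemma polar_fun {S : Submodule K (Module.End K V)} (hc : ∀ a ∈ S, ∀ b ∈ S, a * b = b * a) {P : V}
    {n : ℕ} (φ : V →ₗ[K] K) (h : ∀ f ∈ S, φ ((f ^ n) P) = 0) (l : List (Module.End K V))
    (hl : ∀ f ∈ l, f ∈ S) (hn : l.length ≤ n) :
    ∀ f ∈ S, φ ((f ^ (n - l.length)) (l.prod P)) = 0 := by
  induction l with
  | nil => intro f hf; simpa using h f hf
  | cons a l ih =>
    intro f hf
    rw [List.length_cons] at hn ⊢
    have ih' := ih (fun f hf => hl f (List.mem_cons_of_mem _ hf)) (by omega)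
    have ha : a ∈ S := hl a List.mem_cons_self
    rw [List.prod_cons, Module.End.mul_apply]
    apply lin_coeff_fun (show Commute f a from hc f hf a ha)
    intro t
    have h1 := ih' (f + t • a) (Submodule.add_mem _ hf (Submodule.smul_mem _ _ ha))
    rwa [show n - l.length = n - (l.length + 1) + 1 by omega] at h1

/-- A functional along a one-parameter group is a polynomial. -/
lemma exists_poly [Module ℚ V] {f : Module.End K V} (hf : IsNilpotent f) (φ : V →ₗ[K] K) (x : V) :
    ∃ p : K[X], (∀ t : K, φ ((exp (t • f) : Module.End K V) x) = p.eval t) ∧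
      ∀ m, φ ((f ^ m) x) ≠ 0 → p ≠ 0 := by
  obtain ⟨N, hN⟩ := hf
  refine ⟨∑ m ∈ range N, C (((m.factorial : K)⁻¹) * φ ((f ^ m) x)) * Polynomial.X ^ m, ?_, ?_⟩
  · intro t
    have h1 : (t • f) ^ N = 0 := by rw [_root_.smul_pow, hN, smul_zero]
    rw [exp_eq_sum h1, LinearMap.sum_apply, map_sum, eval_finsetSum]
    apply Finset.sum_congr rfl
    intro m _
    rw [show (((m.factorial : ℚ)⁻¹ : ℚ) • (t • f) ^ m : Module.End K V) =
      ((((m.factorial : ℚ)⁻¹ : ℚ)) : K) • (t • f) ^ m from rat_smul _ _, _root_.smul_pow,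
      LinearMap.smul_apply, LinearMap.smul_apply, map_smul, map_smul, eval_mul, eval_C, eval_pow,
      eval_X, smul_eq_mul, smul_eq_mul]
    push_cast
    ring
  · intro m hm h0
    have hmN : m < N := by
      by_contra h
      apply hm
      rw [show m = N + (m - N) by omega, pow_add, hN, zero_mul, LinearMap.zero_apply, map_zero]
    have h1 := congrArg (fun q => q.coeff m) h0
    simp only [finsetSum_coeff, coeff_C_mul, coeff_X_pow, coeff_zero] at h1
    rw [Finset.sum_eq_single m] at h1
    · rw [if_pos rfl, mul_one] at h1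
      rcases mul_eq_zero.1 h1 with h2 | h2
      · exact inv_ne_zero (Nat.cast_ne_zero.2 (Nat.factorial_ne_zero m)) h2
      · exact hm h2
    · intro i _ him
      rw [if_neg (Ne.symm him), mul_zero]
    · intro h; exact absurd (Finset.mem_range.2 hmN) h

end Polar

variable {k : Type u} [Field k] {𝒱 : VarClass k} {ops : CycleOps 𝒱}
  {W : WeilCohomology.{u, v} ops} {X Y : 𝒱.Obj} {D : X.Cycles} {E : Y.Cycles}
  {g : Submodule W.K (Module.End W.K (W.H X))} {g' : Submodule W.K (Module.End W.K (W.H Y))}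
  {u : W.H X →ₗ[W.K] W.H Y} {v : W.H Y →ₗ[W.K] W.H X}

attribute [local instance] ratModule

/-- The functional detecting the component in degree zero. -/
noncomputable def psi {Q : W.H Y} : W.H Y →ₗ[W.K] W.K :=
  W.tr Y ∘ₗ LinearMap.mulRight W.K Q

lemma psi_iff {Q : W.H Y} (hQ : Q ∈ W.gr Y (2 * Y.dim)) (hQ0 : Q ≠ 0) {b : W.H Y} :
    psi (Q := Q) b = 0 ↔ proj (W.isInternal Y) 0 b = 0 := by
  have h1 : b * Q = proj (W.isInternal Y) 0 b * Q := by
    refine gr_induction (W.isInternal Y) (p := fun b => b * Q = proj (W.isInternal Y) 0 b * Q)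
      ?_ ?_ b
    · intro i b hb
      by_cases hi : i = 0
      · subst hi
        rw [proj_same _ hb]
      · rw [proj_ne _ hb hi, zero_mul]
        have h2 := W.mul_mem hb hQ
        rw [W.gr_eq_bot Y _ (by omega)] at h2
        exact (Submodule.mem_bot _).1 h2
    · intro a b ha hb
      rw [add_mul, ha, hb, map_add, add_mul]
  have h2 : psi (Q := Q) b = W.tr Y (proj (W.isInternal Y) 0 b * Q) := by
    rw [← h1]; rfl
  rw [h2]
  constructor
  · intro h
    have h3 : proj (W.isInternal Y) 0 b ∈ W.gr Y 0 := proj_mem _ _ _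
    rw [W.gr_zero, Submodule.mem_span_singleton] at h3
    obtain ⟨c, hc⟩ := h3
    rw [← hc, smul_mul_assoc, one_mul, map_smul] at h
    rcases smul_eq_zero.1 h with h4 | h4
    · rw [← hc, h4, zero_smul]
    · exact absurd (tr_inj hQ h4) hQ0
  · intro h
    rw [h, zero_mul, map_zero]

lemma rank_of_psi {P : W.H X} (hP : P ∈ W.gr X (2 * X.dim)) (hP0 : P ≠ 0) {Q : W.H Y}
    (hQ : Q ∈ W.gr Y (2 * Y.dim)) (hQ0 : Q ≠ 0) (h : psi (Q := Q) (u P) ≠ 0) :
    NonzeroRank W X Y u := by
  intro x hx h0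
  rw [top_span hP hP0 hx, map_smul] at h0
  rw [← psi_iff hQ hQ0, map_smul] at h0
  rcases smul_eq_zero.1 h0 with h1 | h1
  · rw [top_span hP hP0 hx, h1, zero_smul]
  · exact absurd h1 h

lemma psi_of_rank {P : W.H X} (hP : P ∈ W.gr X (2 * X.dim)) (hP0 : P ≠ 0) {Q : W.H Y}
    (hQ : Q ∈ W.gr Y (2 * Y.dim)) (hQ0 : Q ≠ 0) (h : NonzeroRank W X Y u) :
    psi (Q := Q) (u P) ≠ 0 :=
  fun h0 => hP0 (h P hP ((psi_iff hQ hQ0).1 h0))

/-- The subspace generated from the class `P` by the algebraic lowering operators. -/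
def Orb (W : WeilCohomology.{u, v} ops) (X : 𝒱.Obj)
    (g : Submodule W.K (Module.End W.K (W.H X))) (P : W.H X) : Submodule W.K (W.H X) :=
  Submodule.span W.K {x | ∃ l : List (Module.End W.K (W.H X)),
    (∀ f ∈ l, f ∈ algP W X g (-2)) ∧ x = l.prod P}

lemma orb_self {P : W.H X} : P ∈ Orb W X g P :=
  Submodule.subset_span ⟨[], by simp, by simp⟩

lemma orb_f {P x : W.H X} (hx : x ∈ Orb W X g P) {f : Module.End W.K (W.H X)}
    (hf : f ∈ algP W X g (-2)) : f x ∈ Orb W X g P := by
  induction hx using Submodule.span_induction with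
  | mem x hx =>
    obtain ⟨l, hl, rfl⟩ := hx
    refine Submodule.subset_span ⟨f :: l, ?_, by rw [List.prod_cons, Module.End.mul_apply]⟩
    intro a ha
    rcases List.mem_cons.1 ha with rfl | h
    · exact hf
    · exact hl a h
  | zero => rw [map_zero]; exact Submodule.zero_mem _
  | add x y _ _ hx hy => rw [map_add]; exact Submodule.add_mem _ hx hy
  | smul c x _ hx => rw [map_smul]; exact Submodule.smul_mem _ _ hx

lemma orb_z (hg : IsJordanLefschetz W X D g) {P : W.H X} (hP : P ∈ W.gr X (2 * X.dim))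
    (hP0 : P ≠ 0) {x : W.H X} (hx : x ∈ Orb W X g P) {z : Module.End W.K (W.H X)}
    (hz : z ∈ algP W X g 0) : z x ∈ Orb W X g P := by
  induction hx using Submodule.span_induction with
  | mem x hx =>
    obtain ⟨l, hl, rfl⟩ := hx
    induction l generalizing z with
    | nil =>
      rw [List.prod_nil, Module.End.one_apply,
        top_span hP hP0 (hom_mem hz.2 hP (by push_cast; ring))]
      exact Submodule.smul_mem _ _ orb_self
    | cons f l ih =>
      have hf : f ∈ algP W X g (-2) := hl f List.mem_cons_self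
      have hl' : ∀ a ∈ l, a ∈ algP W X g (-2) := fun a ha => hl a (List.mem_cons_of_mem _ ha)
      have h1 : z (f (l.prod P)) = f (z (l.prod P)) + bk z f (l.prod P) := by
        rw [bk_def, LinearMap.sub_apply, Module.End.mul_apply, Module.End.mul_apply]; abel
      rw [List.prod_cons, Module.End.mul_apply, h1]
      have h2 : bk z f ∈ algP W X g (-2) := algPart_cast (algPart_lie hg hz hf) (by ring)
      exact Submodule.add_mem _ (orb_f (ih hz hl') hf)
        (orb_f (Submodule.subset_span ⟨l, hl', rfl⟩) h2)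
  | zero => rw [map_zero]; exact Submodule.zero_mem _
  | add x y _ _ hx hy => rw [map_add]; exact Submodule.add_mem _ hx hy
  | smul c x _ hx => rw [map_smul]; exact Submodule.smul_mem _ _ hx

lemma orb_e (hg : IsJordanLefschetz W X D g) {P : W.H X} (hP : P ∈ W.gr X (2 * X.dim))
    (hP0 : P ≠ 0) {x : W.H X} (hx : x ∈ Orb W X g P) {e : Module.End W.K (W.H X)}
    (he : e ∈ algP W X g 2) : e x ∈ Orb W X g P := by
  induction hx using Submodule.span_induction with
  | mem x hx =>
    obtain ⟨l, hl, rfl⟩ := hx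
    induction l generalizing e with
    | nil =>
      rw [List.prod_nil, Module.End.one_apply, hom_zero he.2 hP (Or.inr (by push_cast; omega))]
      exact Submodule.zero_mem _
    | cons f l ih =>
      have hf : f ∈ algP W X g (-2) := hl f List.mem_cons_self
      have hl' : ∀ a ∈ l, a ∈ algP W X g (-2) := fun a ha => hl a (List.mem_cons_of_mem _ ha)
      have h1 : e (f (l.prod P)) = f (e (l.prod P)) + bk e f (l.prod P) := by
        rw [bk_def, LinearMap.sub_apply, Module.End.mul_apply, Module.End.mul_apply]; abel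
      rw [List.prod_cons, Module.End.mul_apply, h1]
      have h2 : bk e f ∈ algP W X g 0 := algPart_cast (algPart_lie hg he hf) (by ring)
      exact Submodule.add_mem _ (orb_f (ih he hl') hf)
        (orb_z hg hP hP0 (Submodule.subset_span ⟨l, hl', rfl⟩) h2)
  | zero => rw [map_zero]; exact Submodule.zero_mem _
  | add x y _ _ hx hy => rw [map_add]; exact Submodule.add_mem _ hx hy
  | smul c x _ hx => rw [map_smul]; exact Submodule.smul_mem _ _ hx

lemma orb_alg (hg : IsJordanLefschetz W X D g) {P : W.H X} (hP : P ∈ W.gr X (2 * X.dim))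
    (hP0 : P ≠ 0) {x : W.H X} (hx : x ∈ Orb W X g P) {w : Module.End W.K (W.H X)}
    (hw : w ∈ algE W X g) : w x ∈ Orb W X g P := by
  obtain ⟨f, hf, z, hz, e, he, rfl⟩ := alg_split hg hw
  rw [LinearMap.add_apply, LinearMap.add_apply]
  exact Submodule.add_mem _ (Submodule.add_mem _ (orb_f hx hf) (orb_z hg hP hP0 hx hz))
    (orb_e hg hP hP0 hx he)

lemma orb_list (hg : IsJordanLefschetz W X D g) {P : W.H X} (hP : P ∈ W.gr X (2 * X.dim))
    (hP0 : P ≠ 0) (l : List (Module.End W.K (W.H X))) (hl : ∀ w ∈ l, w ∈ algE W X g) :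
    l.prod P ∈ Orb W X g P := by
  induction l with
  | nil => simpa using orb_self
  | cons w l ih =>
    rw [List.prod_cons, Module.End.mul_apply]
    exact orb_alg hg hP hP0 (ih (fun a ha => hl a (List.mem_cons_of_mem _ ha)))
      (hl w List.mem_cons_self)

/-- A functional which is not zero on the orbit is not zero on some power of one operator. -/
lemma exists_power (hg : IsJordanLefschetz W X D g) {P : W.H X} (φ : W.H X →ₗ[W.K] W.K)
    {x : W.H X} (hx : x ∈ Orb W X g P) (h : φ x ≠ 0) :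
    ∃ f ∈ algP W X g (-2), ∃ m : ℕ, φ ((f ^ m) P) ≠ 0 := by
  by_contra hcon
  push Not at hcon
  apply h
  induction hx using Submodule.span_induction with
  | mem x hx =>
    obtain ⟨l, hl, rfl⟩ := hx
    have h4 := polar_fun (S := algP W X g (-2)) (P := P) (n := l.length)
      (fun a ha b hb => by
        have h5 := lie_neg_neg hg (alg_part ha) (alg_part hb)
        rw [bk_def] at h5
        exact sub_eq_zero.1 h5) φ (fun f hf => hcon f hf _) l hl le_rfl 0 (Submodule.zero_mem _)
    rwa [Nat.sub_self, pow_zero, Module.End.one_apply] at h4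
  | zero => exact map_zero _
  | add x y _ _ hx hy =>
    by_cases h1 : φ x = 0
    · by_cases h2 : φ y = 0
      · rw [map_add, h1, h2, add_zero]
      · exact absurd (hy h2) h2
    · exact absurd (hx h1) h1
  | smul c x _ hx =>
    by_cases h1 : φ x = 0
    · rw [map_smul, h1, smul_zero]
    · exact absurd (hx h1) h1

lemma conj_list (h : LieIso W X Y g g' u v) (l : List (Module.End W.K (W.H Y))) (x : W.H X) :
    (l.map (cj v u)).prod x = v (l.prod (u x)) := by
  induction l with
  | nil => simp [h.vu]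
  | cons a l ih =>
    rw [List.map_cons, List.prod_cons, Module.End.mul_apply, ih, List.prod_cons,
      Module.End.mul_apply, cj_apply, h.uv]

lemma conj_pow (h : LieIso W X Y g g' u v) (a : Module.End W.K (W.H Y)) (m : ℕ) (x : W.H X) :
    ((cj v u a) ^ m) x = v ((a ^ m) (u x)) := by
  induction m generalizing x with
  | zero => simp [h.vu]
  | succ m ih =>
    rw [pow_succ, Module.End.mul_apply, ih, pow_succ, Module.End.mul_apply, cj_apply, h.uv]

/-- **The conjecture B from a Lie isomorphism of non-zero rank up to algebraic elements.** -/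
theorem lefschetzB_of_rank (hdim : X.dim = Y.dim) (hg : IsJordanLefschetz W X D g)
    (hD : X.IsCyc 1 D) (hHL : HardLefschetz W X D) (hg' : IsJordanLefschetz W Y E g')
    (hE : Y.IsCyc 1 E) (hHL' : HardLefschetz W Y E) (h : LieIso W X Y g g' u v)
    {l : List (Module.End W.K (W.H X))} (hl : ∀ w ∈ l, w ∈ algE W X g)
    (hr : NonzeroRank W X Y (u ∘ₗ (l.prod : W.H X →ₗ[W.K] W.H X)))
    {l' : List (Module.End W.K (W.H Y))} (hl' : ∀ w ∈ l', w ∈ algE W Y g')
    (hr' : NonzeroRank W Y X (v ∘ₗ (l'.prod : W.H Y →ₗ[W.K] W.H Y))) : LefschetzB W X D := by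
  apply lefschetzB_of_product hg hD hHL
  set m : List (Module.End W.K (W.H X)) :=
    l'.map (cj v u) ++ (List.replicate X.dim (cj v u (lop W Y E)) ++ l) with hm
  have hmp : ∀ x, m.prod x = v (l'.prod ((lop W Y E ^ X.dim) (u (l.prod x)))) := by
    intro x
    rw [hm, List.prod_append, List.prod_append, Module.End.mul_apply, Module.End.mul_apply,
      List.prod_replicate, conj_pow h, conj_list h, h.uv]
  refine ⟨m, ?_, ?_⟩
  · intro w hw
    rw [hm] at hw
    rcases List.mem_append.1 hw with h1 | h1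
    · obtain ⟨a, ha, rfl⟩ := List.mem_map.1 h1
      exact cj_alg h.symm (hl' a ha)
    · rcases List.mem_append.1 h1 with h2 | h2
      · rw [List.eq_of_mem_replicate h2]
        exact cj_alg h.symm (lop_alg hg' hE).1
      · exact hl w h2
  · intro x hx h0
    rw [hmp] at h0
    apply hr x hx
    rw [LinearMap.comp_apply]
    set y := u (l.prod x) with hy
    have hk : ∀ y, ((lop W Y E) ^ X.dim) y =
        ((lop W Y E) ^ X.dim) (proj (W.isInternal Y) 0 y) := by
      intro y
      refine gr_induction (W.isInternal Y) (p := fun y => ((lop W Y E) ^ X.dim) y =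
        ((lop W Y E) ^ X.dim) (proj (W.isInternal Y) 0 y)) ?_ ?_ y
      · intro i y hy
        by_cases hi : i = 0
        · subst hi
          rw [proj_same _ hy]
        · rw [proj_ne _ hy hi, map_zero]
          have h1 := Lpow_mem (W := W) hE (c := X.dim) (i := i) rfl hy
          rw [W.gr_eq_bot Y _ (by omega)] at h1
          exact (Submodule.mem_bot _).1 h1
      · intro a b ha hb
        rw [map_add, ha, hb, map_add, map_add]
    have hp : proj (W.isInternal Y) 0 y ∈ W.gr Y 0 := proj_mem _ _ _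
    have h1 := Lpow_mem (W := W) hE (c := X.dim) (i := 0) (j := 2 * Y.dim) (by omega) hp
    have h2 := hr' _ h1 (by rw [LinearMap.comp_apply, ← hk]; exact h0)
    exact Lpow_inj hHL' (c := X.dim) (by omega) (by rwa [hdim, Nat.sub_self]) h2

lemma exp_smul_inv {f : Module.End W.K (W.H X)} (hf : IsNilpotent f) (t : W.K) (x : W.H X) :
    (exp (-(t • f)) : Module.End W.K (W.H X)) ((exp (t • f) : Module.End W.K (W.H X)) x) = x := by
  have hn : IsNilpotent (t • f) := by
    obtain ⟨N, hN⟩ := hf
    exact ⟨N, by rw [_root_.smul_pow, hN, smul_zero]⟩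
  have h1 := IsNilpotent.exp_neg_mul_exp_self hn
  exact LinearMap.congr_fun h1 x

/-- **Reduction to non-zero rank.** -/
theorem exists_rank (hg : IsJordanLefschetz W X D g) (hg' : IsJordanLefschetz W Y E g')
    (h : LieIso W X Y g g' u v)
    {l : List (Module.End W.K (W.H X))} (hl : ∀ w ∈ l, w ∈ algE W X g)
    (hr : NonzeroRank W X Y (u ∘ₗ (l.prod : W.H X →ₗ[W.K] W.H X)))
    {l' : List (Module.End W.K (W.H Y))} (hl' : ∀ w ∈ l', w ∈ algE W Y g')
    (hr' : NonzeroRank W Y X (v ∘ₗ (l'.prod : W.H Y →ₗ[W.K] W.H Y))) :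
    ∃ u' v', LieIso W X Y g g' u' v' ∧ NonzeroRank W X Y u' ∧ NonzeroRank W Y X v' := by
  by_cases hPP : ∃ P ∈ W.gr X (2 * X.dim), P ≠ 0
  swap
  · push Not at hPP
    have hX := eq_zero_of_top hPP
    refine ⟨u, v, h, fun x _ _ => hX x, fun y _ _ => ?_⟩
    rw [← h.uv y, hX (v y), map_zero]
  obtain ⟨P, hP, hP0⟩ := hPP
  obtain ⟨Q, hQ, hQ0⟩ : ∃ Q ∈ W.gr Y (2 * Y.dim), Q ≠ 0 := by
    by_contra hcon
    push Not at hcon
    have hY := eq_zero_of_top hcon
    apply hP0
    rw [← h.vu P, hY (u P), map_zero]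
  have two : (-2 : ℤ) = 2 ∨ (-2 : ℤ) = -2 := Or.inr rfl
  -- the first correction
  have r1 := psi_of_rank hP hP0 hQ hQ0 hr
  obtain ⟨f, hf, m, hfm⟩ := exists_power hg (psi (Q := Q) ∘ₗ u) (orb_list hg hP hP0 l hl) r1
  have hfn := nil_of_hom two hf.2
  obtain ⟨p, hp, hpne⟩ := exists_poly hfn (psi (Q := Q) ∘ₗ u) P
  obtain ⟨t, -, ht⟩ := exists_nonroot p (hpne m hfm)
  have htf : t • f ∈ algP W X g (-2) := Submodule.smul_mem _ _ hf
  have L1 := lieIso_exp hg two htf
  have h1 := L1.trans h
  set u₁ := u ∘ₗ (exp (t • f) : W.H X →ₗ[W.K] W.H X) with hu₁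
  set v₁ := (exp (-(t • f)) : W.H X →ₗ[W.K] W.H X) ∘ₗ v with hv₁
  have s1 : psi (Q := Q) (u₁ P) ≠ 0 := by
    rw [hu₁, LinearMap.comp_apply]
    have := hp t
    rw [LinearMap.comp_apply] at this
    rw [this]; exact ht
  -- the second functional
  have r2 := psi_of_rank hQ hQ0 hP hP0 hr'
  obtain ⟨y, hy, hy0⟩ : ∃ y ∈ Orb W Y g' Q, (psi (Q := P) ∘ₗ v₁) y ≠ 0 := by
    refine ⟨u ((exp (t • f) : Module.End W.K (W.H X)) (v (l'.prod Q))), ?_, ?_⟩
    · obtain ⟨N, hN⟩ := nil_of_hom two htf.2
      rw [exp_eq_sum hN, LinearMap.sum_apply, map_sum]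
      apply Submodule.sum_mem
      intro j _
      rw [show (((j.factorial : ℚ)⁻¹ : ℚ) • (t • f) ^ j : Module.End W.K (W.H X)) =
        ((((j.factorial : ℚ)⁻¹ : ℚ)) : W.K) • (t • f) ^ j from rat_smul _ _,
        LinearMap.smul_apply, map_smul]
      apply Submodule.smul_mem
      rw [← conj_pow h.symm]
      have hst : ∀ j : ℕ, ((cj u v (t • f)) ^ j) (l'.prod Q) ∈ Orb W Y g' Q := by
        intro j
        induction j with
        | zero => rw [pow_zero, Module.End.one_apply]; exact orb_list hg' hQ hQ0 l' hl'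
        | succ j ih =>
          rw [pow_succ', Module.End.mul_apply]
          exact orb_alg hg' hQ hQ0 ih (cj_alg h htf.1)
      exact hst j
    · rw [LinearMap.comp_apply, hv₁, LinearMap.comp_apply, h.vu]
      have e1 : (exp (-(t • f)) : Module.End W.K (W.H X))
          ((exp (t • f) : Module.End W.K (W.H X)) (v (l'.prod Q))) = v (l'.prod Q) :=
        exp_smul_inv hfn t _
      have e2 : (exp (-(t • f)) : W.H X →ₗ[W.K] W.H X)
          ((exp (t • f) : Module.End W.K (W.H X)) (v (l'.prod Q))) = v (l'.prod Q) := e1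
      rw [e2]
      exact r2
  obtain ⟨f', hf', m', hfm'⟩ := exists_power hg' (psi (Q := P) ∘ₗ v₁) hy hy0
  have hfn' := nil_of_hom two hf'.2
  obtain ⟨p', hp', hpne'⟩ := exists_poly hfn' (psi (Q := P) ∘ₗ v₁) Q
  obtain ⟨q', hq', hqne'⟩ := exists_poly (f := -f') hfn'.neg (psi (Q := Q)) (u₁ P)
  have hq0 : q' ≠ 0 := hqne' 0 (by rw [pow_zero, Module.End.one_apply]; exact s1)
  obtain ⟨s, -, hs⟩ := exists_nonroot (p' * q') (mul_ne_zero (hpne' m' hfm') hq0)
  rw [Polynomial.eval_mul] at hs
  have hsf : -(s • f') ∈ algP W Y g' (-2) :=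
    Submodule.neg_mem _ (Submodule.smul_mem _ _ hf')
  have L2 := lieIso_exp hg' two hsf
  have h2 := h1.trans L2
  refine ⟨_, _, h2, ?_, ?_⟩
  · apply rank_of_psi hP hP0 hQ hQ0
    rw [LinearMap.comp_apply]
    have e1 := hq' s
    rw [smul_neg] at e1
    exact fun e2 => right_ne_zero_of_mul hs (e1.symm.trans e2)
  · apply rank_of_psi hQ hQ0 hP hP0
    rw [LinearMap.comp_apply, neg_neg]
    have e1 := hp' s
    rw [LinearMap.comp_apply] at e1
    exact fun e2 => left_ne_zero_of_mul hs (e1.symm.trans e2)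

end Pool.Agent.N190.JM
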