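import Pool.Agent.N190.JM.Mot
import Pool.Agent.N190.JM.Grad
import Pool.Agent.N190.JM.Rank
import Pool.Agent.N190.JL.Bridge

/-!
# Algebraic isomorphisms of Jordan-Lefschetz algebras and motives: the theorem
-/

open CategoryTheory AlgebraicGeometry Finset

universe u v w w'

namespace Pool.Agent.N190.JMS

open Pool.Agent.H914 Pool.Agent.N190.Opp Pool.Agent.N190.JLS VarClass Obj WeilCohomology
  Pool.Agent.W498.Dom

variable {k : Type u} [Field k] {𝒱 : VarClass k} {ops : CycleOps 𝒱}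
  {W : WeilCohomology.{u, v} ops} {X Y : 𝒱.Obj} {D : X.Cycles} {E : Y.Cycles}
  {g : Set (Mp W X X)} {g' : Set (Mp W Y Y)} {u : Mp W X Y} {v : Mp W Y X}

lemma lieIso (hg : IsJordanLefschetz W X D g) (hg' : IsJordanLefschetz W Y E g')
    (h : IsLieIsomorphism W X Y g g' u v) : JM.LieIso W X Y (gs hg) (gs hg') u v where
  alg := by
    obtain ⟨γ, hγ, h1⟩ := h.alg
    rw [← h1]
    exact Opp.corr_mix hγ
  alg' := by
    obtain ⟨γ, hγ, h1⟩ := h.alg'
    rw [← h1]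
    exact Opp.corr_mix hγ
  left := LinearMap.ext h.carries.1
  right := LinearMap.ext h.carries'.1
  conj := h.carries.2
  conj' := h.carries'.2

lemma of_lieIso (hg : IsJordanLefschetz W X D g) (hg' : IsJordanLefschetz W Y E g')
    (h : JM.LieIso W X Y (gs hg) (gs hg') u v) : IsLieIsomorphism W X Y g g' u v where
  alg := JL.exists_mixed h.alg
  alg' := JL.exists_mixed h.alg'
  carries := ⟨h.vu, h.conj⟩
  carries' := ⟨h.uv, h.conj'⟩

lemma rank_list (hg : IsJordanLefschetz W X D g) (h : HasRank W X Y g u) :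
    ∃ l : List (Module.End W.K (W.H X)), (∀ w ∈ l, w ∈ JL.algE W X (gs hg)) ∧
      JL.NonzeroRank W X Y (u ∘ₗ (l.prod : W.H X →ₗ[W.K] W.H X)) := by
  obtain ⟨l, hl, hr⟩ := h
  refine ⟨l, fun w hw => hl w hw, ?_⟩
  have hr' : NonzeroRank W X Y (u ∘ₗ compose l) := hr
  rw [rank_iff, foldr_eq] at hr'
  exact hr'

lemma exists_good (hD : X.IsCyc 1 D) (hHL : HardLefschetz W X D)
    (hg : IsJordanLefschetz W X D g) (hB : LefschetzB W X D) :
    ∃ F, JM.Good W X D (gs hg) F := by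
  obtain ⟨F, hF, t⟩ := JL.exists_element (jl hg) hD hHL hB
  exact ⟨F, jl hg, hD, hHL, hF, t⟩

/-- **The main theorem.** -/
theorem main (hdim : X.dim = Y.dim) (hD : X.IsCyc 1 D) (hHL : HardLefschetz W X D)
    (hg : IsJordanLefschetz W X D g) (hE : Y.IsCyc 1 E) (hHL' : HardLefschetz W Y E)
    (hg' : IsJordanLefschetz W Y E g') (h : IsLieIsomorphism W X Y g g' u v)
    (hu : HasRank W X Y g u) (hv : HasRank W Y X g' v) :
    (LefschetzB W X D ∧ LefschetzB W Y E) ∧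
    (∃ s s', IsLieIsomorphism W X Y g g' s s' ∧ IsMultiplicative (W.gr X) (W.gr Y) g s) ∧
    ∃ (z : (X.prod Y).Cycles) (z' : (Y.prod X).Cycles),
      (X.prod Y).IsCyc X.dim z ∧ (Y.prod X).IsCyc Y.dim z' ∧
      ∀ W' : WeilCohomology.{u, v} ops, SameBetti W W' X → SameBetti W W' Y →
        AreInverse W' X Y z z' ∧ ∀ 𝓜 : Motives.{u, w, w'} ops,
          KernelNilpotent W' 𝓜 X → KernelNilpotent W' 𝓜 Y → GivesIso 𝓜 X Y z := by
  obtain ⟨l, hl, hr⟩ := rank_list hg hu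
  obtain ⟨l', hl', hr'⟩ := rank_list hg' hv
  have L := lieIso hg hg' h
  have BX : LefschetzB W X D :=
    JM.lefschetzB_of_rank hdim (jl hg) hD hHL (jl hg') hE hHL' L hl hr hl' hr'
  have BY : LefschetzB W Y E :=
    JM.lefschetzB_of_rank hdim.symm (jl hg') hE hHL' (jl hg) hD hHL L.symm hl' hr' hl hr
  obtain ⟨F, G⟩ := exists_good hD hHL hg BX
  obtain ⟨F', G'⟩ := exists_good hE hHL' hg' BY
  obtain ⟨u₁, v₁, L₁, r₁, r₁'⟩ := JM.exists_rank (jl hg) (jl hg') L hl hr hl' hr'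
  obtain ⟨T, T', hT, hTh⟩ := JM.exists_graded L₁ G G' r₁ r₁'
  obtain ⟨S, S', hS, hSd, hS1, hSm⟩ := JM.exists_mult hdim G G' hT hTh
  have hSd' : ∀ i, ∀ a ∈ W.gr Y i, S' a ∈ W.gr X i := by
    intro i a ha
    apply JM.eq_gr_of_inj hSd hS.uv hS.vu ha
  refine ⟨⟨BX, BY⟩, ⟨S, S', of_lieIso hg hg' hS, hSd, hS1, fun x hx hxg y => hSm x y hx hxg⟩, ?_⟩
  obtain ⟨z, z', hz, hz', hzz⟩ := JM.exists_pair hdim hD hHL BX
    (JM.kop_of_comm hS.alg hSd) (JM.kop_of_comm hS.alg' hSd') hS.vu hS.uv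
  refine ⟨z, z', hz, by rw [← hdim]; exact hz', fun W' hX hY => ⟨hzz W' hX hY, ?_⟩⟩
  intro 𝓜 nX nY
  exact iso_of_pair hdim hz hz' (hzz W' hX hY) nX nY

end Pool.Agent.N190.JMS
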