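import Pool.Agent.N190.JL.Exp

/-!
# The homogeneous components of the elements of a three-graded Lie algebra
-/

open CategoryTheory AlgebraicGeometry Finset

universe u v

namespace Pool.Agent.N190.JM

open Pool.Agent.H914 Pool.Agent.N190.Opp VarClass Obj WeilCohomology Pool.Agent.W498.Dom
  Pool.Agent.N190.JL

variable {k : Type u} [Field k] {𝒱 : VarClass k} {ops : CycleOps 𝒱}
  {W : WeilCohomology.{u, v} ops} {X Y : 𝒱.Obj} {D : X.Cycles} {E : Y.Cycles}
  {g : Submodule W.K (Module.End W.K (W.H X))} {g' : Submodule W.K (Module.End W.K (W.H Y))}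

/-- The component of degree `-2`. -/
noncomputable def cm (W : WeilCohomology.{u, v} ops) (X : 𝒱.Obj) :
    Module.End W.K (W.H X) →ₗ[W.K] Module.End W.K (W.H X) :=
  (8⁻¹ : W.K) • (adl (hop W X) ∘ₗ adl (hop W X) - (2 : W.K) • adl (hop W X))

/-- The component of degree `0`. -/
noncomputable def cz (W : WeilCohomology.{u, v} ops) (X : 𝒱.Obj) :
    Module.End W.K (W.H X) →ₗ[W.K] Module.End W.K (W.H X) :=
  LinearMap.id - (4⁻¹ : W.K) • (adl (hop W X) ∘ₗ adl (hop W X))

lemma cm_hom {d : ℤ} {a : Module.End W.K (W.H X)} (ha : IsHom (W.gr X) d a) :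
    cm W X a = ((8⁻¹ : W.K) * ((d : W.K) * d - 2 * d)) • a := by
  rw [cm, LinearMap.smul_apply, LinearMap.sub_apply, LinearMap.comp_apply, LinearMap.smul_apply,
    adl_apply, adl_apply, hop_lie ha, bk_smul, hop_lie ha]
  module

lemma cz_hom {d : ℤ} {a : Module.End W.K (W.H X)} (ha : IsHom (W.gr X) d a) :
    cz W X a = (1 - (4⁻¹ : W.K) * ((d : W.K) * d)) • a := by
  rw [cz, LinearMap.sub_apply, LinearMap.smul_apply, LinearMap.comp_apply,
    adl_apply, adl_apply, hop_lie ha, bk_smul, hop_lie ha, LinearMap.id_apply]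
  module

lemma cm_neg {a : Module.End W.K (W.H X)} (ha : IsHom (W.gr X) (-2) a) : cm W X a = a := by
  rw [cm_hom ha]
  have : ((8⁻¹ : W.K) * (((-2 : ℤ) : W.K) * ((-2 : ℤ) : W.K) - 2 * ((-2 : ℤ) : W.K))) = 1 := by
    push_cast; norm_num
  rw [this, one_smul]

lemma cm_zero {a : Module.End W.K (W.H X)} (ha : IsHom (W.gr X) 0 a) : cm W X a = 0 := by
  rw [cm_hom ha]
  simp

lemma cm_pos {a : Module.End W.K (W.H X)} (ha : IsHom (W.gr X) 2 a) : cm W X a = 0 := by
  rw [cm_hom ha]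
  have : ((8⁻¹ : W.K) * (((2 : ℤ) : W.K) * ((2 : ℤ) : W.K) - 2 * ((2 : ℤ) : W.K))) = 0 := by
    push_cast; norm_num
  rw [this, zero_smul]

lemma cz_neg {a : Module.End W.K (W.H X)} (ha : IsHom (W.gr X) (-2) a) : cz W X a = 0 := by
  rw [cz_hom ha]
  have : (1 - (4⁻¹ : W.K) * (((-2 : ℤ) : W.K) * ((-2 : ℤ) : W.K))) = 0 := by
    push_cast; norm_num
  rw [this, zero_smul]

lemma cz_zero {a : Module.End W.K (W.H X)} (ha : IsHom (W.gr X) 0 a) : cz W X a = a := by
  rw [cz_hom ha]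
  simp

lemma cz_pos {a : Module.End W.K (W.H X)} (ha : IsHom (W.gr X) 2 a) : cz W X a = 0 := by
  rw [cz_hom ha]
  have : (1 - (4⁻¹ : W.K) * (((2 : ℤ) : W.K) * ((2 : ℤ) : W.K))) = 0 := by
    push_cast; norm_num
  rw [this, zero_smul]

lemma cm_sum {f z e : Module.End W.K (W.H X)} (hf : IsHom (W.gr X) (-2) f)
    (hz : IsHom (W.gr X) 0 z) (he : IsHom (W.gr X) 2 e) : cm W X (f + z + e) = f := by
  rw [map_add, map_add, cm_neg hf, cm_zero hz, cm_pos he, add_zero, add_zero]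

lemma add_bk' {K V : Type*} [Field K] [AddCommGroup V] [Module K V] (a b c : Module.End K V) :
    bk (a + b) c = bk a c + bk b c := by
  unfold bk; noncomm_ring

lemma zero_bk' {K V : Type*} [Field K] [AddCommGroup V] [Module K V] (c : Module.End K V) :
    bk 0 c = 0 := by
  unfold bk; rw [zero_mul, mul_zero, sub_self]

lemma cz_sum {f z e : Module.End W.K (W.H X)} (hf : IsHom (W.gr X) (-2) f)
    (hz : IsHom (W.gr X) 0 z) (he : IsHom (W.gr X) 2 e) : cz W X (f + z + e) = z := by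
  rw [map_add, map_add, cz_neg hf, cz_zero hz, cz_pos he, add_zero, zero_add]

/-- A linear isomorphism of Lie algebras of operators given by mutually inverse algebraic
operators. -/
structure LieIso (W : WeilCohomology.{u, v} ops) (X Y : 𝒱.Obj)
    (g : Submodule W.K (Module.End W.K (W.H X))) (g' : Submodule W.K (Module.End W.K (W.H Y)))
    (u : W.H X →ₗ[W.K] W.H Y) (v : W.H Y →ₗ[W.K] W.H X) : Prop where
  alg : u ∈ KMix W X Y
  alg' : v ∈ KMix W Y X
  left : v ∘ₗ u = LinearMap.id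
  right : u ∘ₗ v = LinearMap.id
  conj : ∀ a ∈ g, u ∘ₗ (a : W.H X →ₗ[W.K] W.H X) ∘ₗ v ∈ g'
  conj' : ∀ b ∈ g', v ∘ₗ (b : W.H Y →ₗ[W.K] W.H Y) ∘ₗ u ∈ g

namespace LieIso

variable {Z : 𝒱.Obj} {g'' : Submodule W.K (Module.End W.K (W.H Z))}
  {u : W.H X →ₗ[W.K] W.H Y} {v : W.H Y →ₗ[W.K] W.H X}

lemma symm (h : LieIso W X Y g g' u v) : LieIso W Y X g' g v u :=
  ⟨h.alg', h.alg, h.right, h.left, h.conj', h.conj⟩

lemma vu (h : LieIso W X Y g g' u v) (x : W.H X) : v (u x) = x :=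
  LinearMap.congr_fun h.left x

lemma uv (h : LieIso W X Y g g' u v) (y : W.H Y) : u (v y) = y :=
  LinearMap.congr_fun h.right y

lemma trans (h : LieIso W X Y g g' u v) {u' : W.H Y →ₗ[W.K] W.H Z} {v' : W.H Z →ₗ[W.K] W.H Y}
    (h' : LieIso W Y Z g' g'' u' v') : LieIso W X Z g g'' (u' ∘ₗ u) (v ∘ₗ v') where
  alg := KMix.comp h'.alg h.alg
  alg' := KMix.comp h.alg' h'.alg'
  left := by
    apply LinearMap.ext
    intro x
    simp only [LinearMap.comp_apply, LinearMap.id_apply, h'.vu, h.vu]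
  right := by
    apply LinearMap.ext
    intro x
    simp only [LinearMap.comp_apply, LinearMap.id_apply, h'.uv, h.uv]
  conj := fun a ha => h'.conj _ (h.conj a ha)
  conj' := fun b hb => h.conj' _ (h'.conj' b hb)

end LieIso

/-- Conjugation. -/
def cj (u : W.H X →ₗ[W.K] W.H Y) (v : W.H Y →ₗ[W.K] W.H X) :
    Module.End W.K (W.H X) →ₗ[W.K] Module.End W.K (W.H Y) where
  toFun := fun a => u ∘ₗ (a : W.H X →ₗ[W.K] W.H X) ∘ₗ v
  map_add' := fun a b => by
    apply LinearMap.ext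
    intro y
    simp only [LinearMap.comp_apply, LinearMap.add_apply, map_add]
  map_smul' := fun c a => by
    apply LinearMap.ext
    intro y
    simp only [LinearMap.comp_apply, LinearMap.smul_apply, map_smul, RingHom.id_apply]

lemma cj_apply (u : W.H X →ₗ[W.K] W.H Y) (v : W.H Y →ₗ[W.K] W.H X)
    (a : Module.End W.K (W.H X)) (y : W.H Y) : cj u v a y = u (a (v y)) := rfl

section

variable {u : W.H X →ₗ[W.K] W.H Y} {v : W.H Y →ₗ[W.K] W.H X} (h : LieIso W X Y g g' u v)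

include h

lemma cj_mul (a b : Module.End W.K (W.H X)) : cj u v (a * b) = cj u v a * cj u v b := by
  apply LinearMap.ext
  intro y
  rw [Module.End.mul_apply, cj_apply, cj_apply, cj_apply, h.vu, Module.End.mul_apply]

lemma cj_bk (a b : Module.End W.K (W.H X)) : cj u v (bk a b) = bk (cj u v a) (cj u v b) := by
  rw [bk_def, map_sub, cj_mul h, cj_mul h, bk_def]

lemma cj_pow (a : Module.End W.K (W.H X)) (m : ℕ) : cj u v (a ^ (m + 1)) = cj u v a ^ (m + 1) := by
  induction m with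
  | zero => rw [zero_add, pow_one, pow_one]
  | succ m ih => rw [pow_succ, cj_mul h, ih, ← pow_succ]

lemma cj_cj (a : Module.End W.K (W.H X)) : cj v u (cj u v a) = a := by
  apply LinearMap.ext
  intro x
  rw [cj_apply, cj_apply, h.vu, h.vu]

lemma cj_alg {a : Module.End W.K (W.H X)} (ha : a ∈ algE W X g) : cj u v a ∈ algE W Y g' :=
  ⟨h.conj a ha.1, exists_mixed (KMix.comp h.alg (KMix.comp (alg_mix ha) h.alg'))⟩

end

end Pool.Agent.N190.JM
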