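import Pool.Agent.N190.JM.Cmp

/-!
# The decomposition of a Lie isomorphism of non-zero rank
-/

open CategoryTheory AlgebraicGeometry Finset

universe u v

namespace Pool.Agent.N190.JM

open Pool.Agent.H914 Pool.Agent.N190.Opp VarClass Obj WeilCohomology Pool.Agent.W498.Dom
  Pool.Agent.N190.JL

variable {k : Type u} [Field k] {𝒱 : VarClass k} {ops : CycleOps 𝒱}
  {W : WeilCohomology.{u, v} ops} {X Y : 𝒱.Obj} {D : X.Cycles} {E : Y.Cycles}
  {g : Submodule W.K (Module.End W.K (W.H X))} {g' : Submodule W.K (Module.End W.K (W.H Y))}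

lemma surj_of_finrank' {E₁ E₂ K : Type*} [Field K] [AddCommGroup E₁] [Module K E₁]
    [FiniteDimensional K E₁] [AddCommGroup E₂] [Module K E₂] [FiniteDimensional K E₂]
    {P : Submodule K E₁} {Q : Submodule K E₂} {A : E₁ →ₗ[K] E₂} (hA : ∀ x ∈ P, A x ∈ Q)
    (iA : ∀ x ∈ P, A x = 0 → x = 0) (hfin : Module.finrank K P = Module.finrank K Q) :
    ∀ y ∈ Q, ∃ x ∈ P, A x = y := by
  have h1 : Function.Injective (A.restrict hA) := by
    rw [← LinearMap.ker_eq_bot, LinearMap.ker_eq_bot']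
    intro x hx
    exact Subtype.ext (iA _ x.2 (congrArg Subtype.val hx))
  have h2 := (LinearMap.injective_iff_surjective_of_finrank_eq_finrank hfin).1 h1
  intro y hy
  obtain ⟨x, hx⟩ := h2 ⟨y, hy⟩
  exact ⟨x.1, x.2, congrArg Subtype.val hx⟩

lemma finrank_le_of_inj' {E₁ E₂ K : Type*} [Field K] [AddCommGroup E₁] [Module K E₁]
    [FiniteDimensional K E₁] [AddCommGroup E₂] [Module K E₂] [FiniteDimensional K E₂]
    {P : Submodule K E₁} {Q : Submodule K E₂} {A : E₁ →ₗ[K] E₂} (hA : ∀ x ∈ P, A x ∈ Q)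
    (iA : ∀ x ∈ P, A x = 0 → x = 0) : Module.finrank K P ≤ Module.finrank K Q := by
  have h1 : Function.Injective (A.restrict hA) := by
    rw [← LinearMap.ker_eq_bot, LinearMap.ker_eq_bot']
    intro x hx
    exact Subtype.ext (iA _ x.2 (congrArg Subtype.val hx))
  exact LinearMap.finrank_le_finrank_of_injective h1

/-- Data: the conjecture is known for `X`. -/
structure Good (W : WeilCohomology.{u, v} ops) (X : 𝒱.Obj) (D : X.Cycles)
    (g : Submodule W.K (Module.End W.K (W.H X))) (F : Module.End W.K (W.H X)) : Prop where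
  hg : IsJordanLefschetz W X D g
  hD : X.IsCyc 1 D
  hHL : HardLefschetz W X D
  hF : F ∈ algP W X g (-2)
  t : Sl2 (hop W X) (lop W X D) F

namespace Good

variable {F : Module.End W.K (W.H X)} (G : Good W X D g F)

include G

lemma lop_mem : lop W X D ∈ algP W X g 2 := lop_alg G.hg G.hD

lemma hop_eq : bk (lop W X D) F = hop W X := G.t.ef

lemma hop_mem : hop W X ∈ algP W X g 0 := by
  have h := algPart_lie G.hg G.lop_mem G.hF
  rw [G.hop_eq] at h
  simpa using h

lemma balanced : Module.finrank W.K (algP W X g (-2)) = Module.finrank W.K (algP W X g 2) := by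
  have hB := lefschetzB_of_sl2 G.hg G.hD G.hHL G.hF G.t
  have h := ((tfae G.hg G.hD G.hHL).out 0 3).1 hB
  rwa [IsBalanced, algebraicPart_eq, algebraicPart_eq] at h

lemma pp {a b : Module.End W.K (W.H X)} (ha : a ∈ algP W X g 2) (hb : b ∈ algP W X g 2) :
    bk a b = 0 := lie_pos_pos G.hg (alg_part ha) (alg_part hb)

lemma nn {a b : Module.End W.K (W.H X)} (ha : a ∈ algP W X g (-2)) (hb : b ∈ algP W X g (-2)) :
    bk a b = 0 := lie_neg_neg G.hg (alg_part ha) (alg_part hb)

lemma lie {d e f : ℤ} {a b : Module.End W.K (W.H X)} (ha : a ∈ algP W X g d)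
    (hb : b ∈ algP W X g e) (h : d + e = f) : bk a b ∈ algP W X g f :=
  algPart_cast (algPart_lie G.hg ha hb) h

lemma split {w : Module.End W.K (W.H X)} (hw : w ∈ algE W X g) :
    ∃ f ∈ algP W X g (-2), ∃ z ∈ algP W X g 0, ∃ e ∈ algP W X g 2, w = f + z + e :=
  alg_split G.hg hw

omit G in
lemma alg_of {d : ℤ} {a : Module.End W.K (W.H X)} (ha : a ∈ algP W X g d) : a ∈ algE W X g := ha.1

lemma cm_mem {w : Module.End W.K (W.H X)} (hw : w ∈ algE W X g) :
    cm W X w ∈ algP W X g (-2) := by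
  obtain ⟨f, hf, z, hz, e, he, rfl⟩ := G.split hw
  rw [cm_sum hf.2 hz.2 he.2]
  exact hf

end Good

section

variable {u : W.H X →ₗ[W.K] W.H Y} {v : W.H Y →ₗ[W.K] W.H X} {F : Module.End W.K (W.H X)}
  {F' : Module.End W.K (W.H Y)}

/-- A raising operator is determined by the lowering part of its conjugate. -/
lemma inj_cm (h : LieIso W X Y g g' u v) (G : Good W X D g F) (G' : Good W Y E g' F')
    (hr : NonzeroRank W Y X v) {x : Module.End W.K (W.H X)} (hx : x ∈ algP W X g 2)
    (h0 : cm W Y (cj u v x) = 0) : x = 0 := by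
  obtain ⟨ξ, hξ, hxξ⟩ := part_two G.hg (alg_part hx)
  by_cases hP : ∃ P ∈ W.gr Y (2 * Y.dim), P ≠ 0
  swap
  · push Not at hP
    apply LinearMap.ext
    intro a
    have h1 := eq_zero_of_top hP (u (x a))
    have h2 := h.vu (x a)
    rw [h1, map_zero] at h2
    rw [← h2, LinearMap.zero_apply]
  obtain ⟨P, hP, hP0⟩ := hP
  -- the conjugate fixes the top line
  obtain ⟨f, hf, z, hz, e, he, hsum⟩ := G'.split (cj_alg h hx.1)
  rw [hsum, cm_sum hf.2 hz.2 he.2] at h0
  rw [h0, zero_add] at hsum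
  have hχ : cj u v x P = (W.tr Y (z P) / W.tr Y P) • P := by
    rw [hsum, LinearMap.add_apply, hom_zero he.2 hP (Or.inr (by push_cast; omega)), add_zero]
    exact top_span hP hP0 (hom_mem hz.2 hP (by push_cast; ring))
  set χ := W.tr Y (z P) / W.tr Y P with hχdef
  -- nilpotence
  have hnil : x ^ (X.dim + 1) = 0 := by
    apply gr_ext (W.isInternal X)
    intro i a ha
    rw [LinearMap.zero_apply]
    exact hom_zero (hx.2.pow (X.dim + 1)) ha (Or.inr (by push_cast; omega))
  have hpow : ∀ m : ℕ, (cj u v x ^ m) P = χ ^ m • P := by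
    intro m
    induction m with
    | zero => simp
    | succ m ih => rw [pow_succ, Module.End.mul_apply, hχ, map_smul, ih, smul_smul, pow_succ,
        mul_comm]
  have hχ0 : χ = 0 := by
    have h1 := hpow (X.dim + 1)
    rw [← cj_pow h, hnil, map_zero, LinearMap.zero_apply] at h1
    rcases smul_eq_zero.1 h1.symm with h2 | h2
    · exact pow_eq_zero_iff (by omega) |>.1 h2
    · exact absurd h2 hP0
  rw [hχ0, zero_smul, cj_apply] at hχ
  have h1 : x (v P) = 0 := by
    have := h.vu (x (v P))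
    rw [hχ, map_zero] at this
    exact this.symm
  -- the component of degree two
  have h2 : ∀ y : W.H X, proj (W.isInternal X) 2 (x y) = x (proj (W.isInternal X) 0 y) := by
    intro y
    refine gr_induction (W.isInternal X)
      (p := fun y => proj (W.isInternal X) 2 (x y) = x (proj (W.isInternal X) 0 y)) ?_ ?_ y
    · intro i y hy
      have hxy : x y ∈ W.gr X (i + 2) := hom_mem hx.2 hy (by push_cast; ring)
      by_cases hi : i = 0
      · subst hi
        rw [proj_same _ hy, proj_same _ (by simpa using hxy)]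
      · rw [proj_ne _ hy hi, map_zero, proj_ne _ hxy (by omega)]
    · intro a b ha hb
      rw [map_add, map_add, ha, hb, map_add, map_add]
  have h3 := h2 (v P)
  rw [h1, map_zero] at h3
  have h4 : proj (W.isInternal X) 0 (v P) ∈ W.gr X 0 := proj_mem _ _ _
  rw [W.gr_zero, Submodule.mem_span_singleton] at h4
  obtain ⟨r, hr'⟩ := h4
  have hr0 : r ≠ 0 := by
    rintro rfl
    rw [zero_smul] at hr'
    exact hP0 (hr P hP hr'.symm)
  rw [← hr', map_smul] at h3
  have h5 : x 1 = 0 := by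
    rcases smul_eq_zero.1 h3.symm with h6 | h6
    · exact absurd h6 hr0
    · exact h6
  rw [hxξ, LinearMap.mulLeft_apply, mul_one] at h5
  rw [hxξ, h5, LinearMap.mulLeft_zero_eq_zero]

lemma surj_cm (h : LieIso W X Y g g' u v) (G : Good W X D g F) (G' : Good W Y E g' F')
    (hr : NonzeroRank W X Y u) (hr' : NonzeroRank W Y X v) {y : Module.End W.K (W.H Y)}
    (hy : y ∈ algP W Y g' (-2)) : ∃ x ∈ algP W X g 2, cm W Y (cj u v x) = y := by
  have m1 : ∀ x ∈ algP W X g 2, (cm W Y ∘ₗ cj u v) x ∈ algP W Y g' (-2) := fun x hx =>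
    G'.cm_mem (cj_alg h hx.1)
  have m2 : ∀ x ∈ algP W Y g' 2, (cm W X ∘ₗ cj v u) x ∈ algP W X g (-2) := fun x hx =>
    G.cm_mem (cj_alg h.symm hx.1)
  have i1 : ∀ x ∈ algP W X g 2, (cm W Y ∘ₗ cj u v) x = 0 → x = 0 := fun x hx h0 =>
    inj_cm h G G' hr' hx h0
  have i2 : ∀ x ∈ algP W Y g' 2, (cm W X ∘ₗ cj v u) x = 0 → x = 0 := fun x hx h0 =>
    inj_cm h.symm G' G hr hx h0
  have e1 := finrank_le_of_inj' m1 i1
  have e2 := finrank_le_of_inj' m2 i2
  have e3 := G.balanced
  have e4 := G'.balanced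
  obtain ⟨x, hx, hxy⟩ := surj_of_finrank' m1 i1 (by omega) y hy
  exact ⟨x, hx, hxy⟩

/-- **The big cell.** -/
theorem cell (h : LieIso W X Y g g' u v) (G : Good W X D g F) (G' : Good W Y E g' F')
    (hr : NonzeroRank W X Y u) (hr' : NonzeroRank W Y X v) :
    ∃ e₂ ∈ algP W X g 2, ∃ e' ∈ algP W Y g' 2, ∃ δ : Module.End W.K (W.H Y),
      IsNilpotent δ ∧ IsHom (W.gr Y) 0 δ ∧ bk δ e' = 0 ∧
      cj u v (hop W X + (2 : W.K) • e₂) = (-hop W Y + δ) + e' := by
  have two : (2 : W.K) ≠ 0 := two_ne_zero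
  -- the element `e₂`
  obtain ⟨e₂, he₂, hcm⟩ := surj_cm h G G' hr hr'
    (y := -((2⁻¹ : W.K) • cm W Y (cj u v (hop W X))))
    (Submodule.neg_mem _ (Submodule.smul_mem _ _ (G'.cm_mem (cj_alg h G.hop_mem.1))))
  set H : Module.End W.K (W.H X) := hop W X + (2 : W.K) • e₂ with hH
  have hHalg : H ∈ algE W X g :=
    Submodule.add_mem _ G.hop_mem.1 (Submodule.smul_mem _ _ he₂.1)
  set N := cj u v H with hN
  have hNcm : cm W Y N = 0 := by
    rw [hN, hH, map_add, map_add, map_smul, map_smul, hcm, smul_neg, smul_smul,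
      mul_inv_cancel₀ two, one_smul, add_neg_cancel]
  obtain ⟨f0, hf0, z, hz, e', he', hsum⟩ := G'.split (cj_alg h hHalg)
  rw [← hN] at hsum
  rw [hsum, cm_sum hf0.2 hz.2 he'.2] at hNcm
  rw [hNcm, zero_add] at hsum
  have hLh : IsHom (W.gr X) 2 (lop W X D) := G.lop_mem.2
  -- brackets with `H` and `N`
  have bH2 : ∀ x ∈ algP W X g 2, bk H x = (2 : W.K) • x := by
    intro x hx
    rw [hH, add_bk', smul_bk, G.pp he₂ hx, smul_zero, add_zero, hop_lie hx.2]
    push_cast; rfl
  have bN : ∀ x, bk N (cj u v x) = cj u v (bk H x) := fun x => (cj_bk h _ _).symm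
  -- `z` acts by `2` on the lowering operators
  have hzf : ∀ f ∈ algP W Y g' (-2), bk z f = (2 : W.K) • f := by
    intro f hf
    obtain ⟨x, hx, hxf⟩ := surj_cm h G G' hr hr' hf
    obtain ⟨f1, hf1, z1, hz1, e1, he1, hs⟩ := G'.split (cj_alg h hx.1)
    have hff : f1 = f := by rw [← hxf, hs, cm_sum hf1.2 hz1.2 he1.2]
    subst hff
    have h1 := bN x
    rw [bH2 x hx, map_smul, hs, hsum] at h1
    have h2 := congrArg (cm W Y) h1
    rw [map_smul, cm_sum hf1.2 hz1.2 he1.2] at h2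
    rw [← h2, add_bk', bk_add, bk_add, bk_add, bk_add, G'.pp he' he1, add_zero]
    have k1 : IsHom (W.gr Y) (-2) (bk z f1) := (G'.lie hz hf1 (by norm_num)).2
    have k2 : IsHom (W.gr Y) 0 (bk z z1) := (G'.lie hz hz1 (by norm_num)).2
    have k3 : IsHom (W.gr Y) 2 (bk z e1) := (G'.lie hz he1 (by norm_num)).2
    have k4 : IsHom (W.gr Y) 0 (bk e' f1) := (G'.lie he' hf1 (by norm_num)).2
    have k5 : IsHom (W.gr Y) 2 (bk e' z1) := (G'.lie he' hz1 (by norm_num)).2
    rw [map_add, map_add, map_add, map_add, cm_neg k1, cm_zero k2, cm_pos k3, cm_zero k4,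
      cm_pos k5]
    simp
  set δ := z + hop W Y with hδ
  have hδ0 : δ ∈ algP W Y g' 0 := Submodule.add_mem _ hz G'.hop_mem
  have dneg : ∀ f ∈ algP W Y g' (-2), bk δ f = 0 := by
    intro f hf
    rw [hδ, add_bk', hzf f hf, hop_lie hf.2]
    push_cast; module
  have dpos : ∀ e ∈ algP W Y g' 2, bk δ e = 0 := by
    intro e he
    apply inj_pos G'.hg G'.hD G'.t G'.hF.2 (alg_part (G'.lie hδ0 he (by norm_num)))
    have e1 : bk F' (bk δ e) = bk δ (bk F' e) := by
      rw [bk_leibniz F' δ e, bk_skew F' δ, dneg F' G'.hF, neg_zero, zero_bk', zero_add]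
    have e2 : bk F' (bk δ (bk F' e)) = bk δ (bk F' (bk F' e)) := by
      rw [bk_leibniz F' δ (bk F' e), bk_skew F' δ, dneg F' G'.hF, neg_zero, zero_bk', zero_add]
    have k0 : bk F' e ∈ algP W Y g' 0 := G'.lie G'.hF he (by norm_num)
    have k1 : bk F' (bk F' e) ∈ algP W Y g' (-2) := G'.lie G'.hF k0 (by norm_num)
    rw [e1, e2]
    exact dneg _ k1
  refine ⟨e₂, he₂, e', he', δ, ?_, hδ0.2, dpos e' he', ?_⟩
  swap
  · rw [← hH, ← hN, hsum, hδ]; abel
  -- nilpotence
  set F₂ := F - bk e₂ F + (2⁻¹ : W.K) • bk e₂ (bk e₂ F) with hF₂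
  have m1 : bk e₂ F ∈ algP W X g 0 := G.lie he₂ G.hF (by norm_num)
  have m2 : bk e₂ (bk e₂ F) ∈ algP W X g 2 := G.lie he₂ m1 (by norm_num)
  have hF₂alg : F₂ ∈ algE W X g := Submodule.add_mem _ (Submodule.sub_mem _ G.hF.1 m1.1)
    (Submodule.smul_mem _ _ m2.1)
  have hLe : bk (lop W X D) e₂ = 0 := G.pp G.lop_mem he₂
  have heh : bk e₂ (hop W X) = -((2 : W.K) • e₂) := by
    rw [bk_skew, hop_lie he₂.2]; push_cast; rfl
  have q1 : bk (lop W X D) (bk e₂ F) = -((2 : W.K) • e₂) := by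
    rw [bk_leibniz, hLe, zero_bk', zero_add, G.hop_eq, heh]
  have q2 : bk (lop W X D) (bk e₂ (bk e₂ F)) = 0 := by
    rw [bk_leibniz, hLe, zero_bk', zero_add, q1, bk_neg, bk_smul, bk_self, smul_zero, neg_zero]
  have hLF₂ : bk (lop W X D) F₂ = H := by
    rw [hF₂, bk_add, bk_sub, G.hop_eq, q1, bk_smul, q2, smul_zero, add_zero, hH]; abel
  have hHF₂ : bk H F₂ = -((2 : W.K) • F₂) := by
    have r1 : bk (hop W X) F = -((2 : W.K) • F) := by rw [hop_lie G.hF.2]; push_cast; module
    have r2 : bk (hop W X) (bk e₂ F) = 0 := by rw [hop_lie m1.2]; simp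
    have r3 : bk (hop W X) (bk e₂ (bk e₂ F)) = (2 : W.K) • bk e₂ (bk e₂ F) := by
      rw [hop_lie m2.2]; push_cast; rfl
    have r4 : bk e₂ (bk e₂ (bk e₂ F)) = 0 := G.pp he₂ m2
    rw [hH, add_bk', smul_bk, hF₂, bk_add, bk_sub, bk_smul, r1, r2, r3, bk_add, bk_sub, bk_smul,
      r4, smul_zero, add_zero, sub_zero]
    match_scalars <;> field_simp <;> ring
  -- the conjugates
  set a := cj u v (lop W X D) with ha
  set b := cj u v F₂ with hb
  have hab : bk a b = N := by rw [ha, hb, ← cj_bk h, hLF₂]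
  have hNa : bk N a = (2 : W.K) • a := by rw [ha, bN, bH2 _ G.lop_mem, map_smul]
  have hNb : bk N b = -((2 : W.K) • b) := by rw [hb, bN, hHF₂, map_neg, map_smul]
  obtain ⟨am, ham, az, haz, ap, hap, has⟩ := G'.split (cj_alg h G.lop_mem.1)
  obtain ⟨bm, hbm, bz, hbz, bp, hbp, hbs⟩ := G'.split (cj_alg h hF₂alg)
  rw [← ha] at has
  rw [← hb] at hbs
  -- the components of a bracket with `N`
  have comp : ∀ {fm fz fp : Module.End W.K (W.H Y)}, fm ∈ algP W Y g' (-2) →
      fz ∈ algP W Y g' 0 → fp ∈ algP W Y g' 2 →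
      cm W Y (bk N (fm + fz + fp)) = bk z fm ∧
        cz W Y (bk N (fm + fz + fp)) = bk z fz + bk e' fm := by
    intro fm fz fp h1 h2 h3
    have k1 : IsHom (W.gr Y) (-2) (bk z fm) := (G'.lie hz h1 (by norm_num)).2
    have k2 : IsHom (W.gr Y) 0 (bk z fz) := (G'.lie hz h2 (by norm_num)).2
    have k3 : IsHom (W.gr Y) 2 (bk z fp) := (G'.lie hz h3 (by norm_num)).2
    have k4 : IsHom (W.gr Y) 0 (bk e' fm) := (G'.lie he' h1 (by norm_num)).2
    have k5 : IsHom (W.gr Y) 2 (bk e' fz) := (G'.lie he' h2 (by norm_num)).2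
    rw [hsum, add_bk', bk_add, bk_add, bk_add, bk_add, G'.pp he' h3, add_zero]
    constructor
    · rw [map_add, map_add, map_add, map_add, cm_neg k1, cm_zero k2, cm_pos k3, cm_zero k4,
        cm_pos k5]
      simp
    · rw [map_add, map_add, map_add, map_add, cz_neg k1, cz_zero k2, cz_pos k3, cz_zero k4,
        cz_pos k5]
      simp
  -- `b` has no lowering part
  have hbm0 : bm = 0 := by
    have h1 := (comp hbm hbz hbp).1
    rw [← hbs, hNb, map_neg, map_smul, hbs, cm_sum hbm.2 hbz.2 hbp.2, hzf bm hbm] at h1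
    have h2 : (4 : W.K) • bm = 0 := by
      have : (4 : W.K) • bm = (2 : W.K) • bm - (-((2 : W.K) • bm)) := by module
      rw [this, h1, sub_self]
    rcases smul_eq_zero.1 h2 with h3 | h3
    · norm_num at h3
    · exact h3
  have hbz1 : bk δ bz = -((2 : W.K) • bz) := by
    have h1 := (comp hbm hbz hbp).2
    rw [← hbs, hNb, map_neg, map_smul, hbs, cz_sum hbm.2 hbz.2 hbp.2, hbm0, bk_zero,
      add_zero] at h1
    rw [hδ, add_bk', ← h1, hop_lie hbz.2]
    simp
  have gen : ∀ {c : W.K} {x y : Module.End W.K (W.H Y)}, c ≠ 0 → bk δ x = c • x →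
      bk δ y = 0 → bk δ (bk x y) = 0 → bk x y = 0 := by
    intro c x y hc hx hy hxy
    rw [bk_leibniz, hx, hy, bk_zero, add_zero, smul_bk] at hxy
    rcases smul_eq_zero.1 hxy with h1 | h1
    · exact absurd h1 hc
    · exact h1
  have hbz1' : bk δ bz = (-2 : W.K) • bz := by rw [hbz1]; module
  have bzm : ∀ f ∈ algP W Y g' (-2), bk bz f = 0 := fun f hf =>
    gen (by norm_num) hbz1' (dneg f hf) (dneg _ (G'.lie hbz hf (by norm_num)))
  have bzp : ∀ e ∈ algP W Y g' 2, bk bz e = 0 := fun e he =>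
    gen (by norm_num) hbz1' (dpos e he) (dpos _ (G'.lie hbz he (by norm_num)))
  -- the part of degree zero of `a`
  set q := bk e' am with hq
  have hq0 : q ∈ algP W Y g' 0 := G'.lie he' ham (by norm_num)
  have hδq : bk δ q = 0 := by
    rw [hq, bk_leibniz, dpos e' he', zero_bk', zero_add, dneg am ham, bk_zero]
  have hza : bk z az = (2 : W.K) • az - q := by
    have h1 := (comp ham haz hap).2
    rw [← has, hNa, map_smul, has, cz_sum ham.2 haz.2 hap.2] at h1
    rw [h1]; abel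
  have hδa : bk δ az = (2 : W.K) • az - q := by
    rw [hδ, add_bk', hza, hop_lie haz.2]
    simp
  set c0 := az - (2⁻¹ : W.K) • q with hc0
  have hc0m : c0 ∈ algP W Y g' 0 := Submodule.sub_mem _ haz (Submodule.smul_mem _ _ hq0)
  have hδc : bk δ c0 = (2 : W.K) • c0 := by
    rw [hc0, bk_sub, bk_smul, hδq, smul_zero, sub_zero, hδa, smul_sub, smul_smul,
      mul_inv_cancel₀ two, one_smul]
  have cp : ∀ e ∈ algP W Y g' 2, bk c0 e = 0 := fun e he =>
    gen two hδc (dpos e he) (dpos _ (G'.lie hc0m he (by norm_num)))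
  have hNc : bk N c0 = (2 : W.K) • c0 := by
    have h1 : bk e' c0 = 0 := by rw [bk_skew, cp e' he', neg_zero]
    have h2 : z = δ - hop W Y := by rw [hδ]; abel
    rw [hsum, add_bk', h1, add_zero, h2, sub_bk, hδc, hop_lie hc0m.2]
    simp
  have hc00 : c0 = 0 := by
    set y := cj v u c0 with hy
    have hyc : cj u v y = c0 := cj_cj h.symm c0
    have hyalg : y ∈ algE W X g := cj_alg h.symm hc0m.1
    have hHy : bk H y = (2 : W.K) • y := by
      have h1 := bN y
      rw [hyc, hNc] at h1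
      have h2 := congrArg (cj v u) h1
      rw [cj_cj h, map_smul, ← hy] at h2
      exact h2.symm
    obtain ⟨ym, hym, yz, hyz, yp, hyp, hys⟩ := G.split hyalg
    have k1 : IsHom (W.gr X) 0 (bk e₂ ym) := (G.lie he₂ hym (by norm_num)).2
    have k2 : IsHom (W.gr X) 2 (bk e₂ yz) := (G.lie he₂ hyz (by norm_num)).2
    have hexp : bk H y = -((2 : W.K) • ym) + (2 : W.K) • bk e₂ ym +
        ((2 : W.K) • yp + (2 : W.K) • bk e₂ yz) := by
      rw [hH, add_bk', smul_bk, hys, bk_add, bk_add, bk_add, bk_add, G.pp he₂ hyp, hop_lie hym.2,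
        hop_lie hyz.2, hop_lie hyp.2]
      push_cast
      module
    have e1 : ym = 0 := by
      have h1 := congrArg (cm W X) (hexp.symm.trans hHy)
      rw [hys, map_smul, cm_sum hym.2 hyz.2 hyp.2, map_add, map_add, map_neg, map_smul, map_smul,
        map_add, map_smul, map_smul, cm_neg hym.2, cm_zero k1, cm_pos hyp.2, cm_pos k2] at h1
      have h2 : (4 : W.K) • ym = 0 := by
        have : (4 : W.K) • ym = (2 : W.K) • ym -
          (-((2 : W.K) • ym) + (2 : W.K) • (0 : Module.End W.K (W.H X)) +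
            ((2 : W.K) • (0 : Module.End W.K (W.H X)) +
              (2 : W.K) • (0 : Module.End W.K (W.H X)))) := by module
        rw [this, h1, sub_self]
      rcases smul_eq_zero.1 h2 with h3 | h3
      · norm_num at h3
      · exact h3
    have e2 : yz = 0 := by
      have h1 := congrArg (cz W X) (hexp.symm.trans hHy)
      rw [hys, map_smul, cz_sum hym.2 hyz.2 hyp.2, map_add, map_add, map_neg, map_smul, map_smul,
        map_add, map_smul, map_smul, cz_neg hym.2, cz_zero k1, cz_pos hyp.2, cz_pos k2, e1,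
        bk_zero] at h1
      have h2 : (2 : W.K) • yz = 0 := by
        rw [← h1]; simp
      rcases smul_eq_zero.1 h2 with h3 | h3
      · norm_num at h3
      · exact h3
    have hy2 : y ∈ algP W X g 2 := by
      rw [hys, e1, e2, zero_add, zero_add]; exact hyp
    have h1 := inj_cm h G G' hr' hy2 (by rw [hyc, cm_zero hc0m.2])
    rw [← hyc, h1, map_zero]
  have haq : az = (2⁻¹ : W.K) • q := sub_eq_zero.1 hc00
  have hazbz : bk az bz = 0 := by
    rw [haq, smul_bk, hq]
    have h1 : bk (bk e' am) bz = 0 := by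
      rw [bk_skew, bk_leibniz, bzp e' he', zero_bk', zero_add, bzm am ham, bk_zero, neg_zero]
    rw [h1, smul_zero]
  -- the degree zero part of `N`
  have hz' : z = bk am bp := by
    have h1 : cz W Y N = z := by
      rw [hsum, map_add, cz_zero hz.2, cz_pos he'.2, add_zero]
    rw [← h1, ← hab, has, hbs, hbm0, zero_add, add_bk', add_bk', bk_add, bk_add, bk_add, hazbz,
      zero_add, G'.pp hap hbp, add_zero]
    have k1 : IsHom (W.gr Y) (-2) (bk am bz) := (G'.lie ham hbz (by norm_num)).2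
    have k2 : IsHom (W.gr Y) 0 (bk am bp) := (G'.lie ham hbp (by norm_num)).2
    have k3 : IsHom (W.gr Y) 2 (bk az bp) := (G'.lie haz hbp (by norm_num)).2
    have k4 : IsHom (W.gr Y) 2 (bk ap bz) := (G'.lie hap hbz (by norm_num)).2
    rw [map_add, map_add, map_add, cz_neg k1, cz_zero k2, cz_pos k3, cz_pos k4]
    simp
  -- traces
  have hcomm : ∀ {x : Module.End W.K (W.H Y)}, bk δ x = 0 → ∀ r, x * δ ^ r = δ ^ r * x := by
    intro x hx r
    rw [bk_def] at hx
    have h1 : Commute x δ := (sub_eq_zero.1 hx).symm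
    exact (h1.pow_right r).eq
  apply isNilpotent_of_trace_pow
  intro r
  have h1 : δ ^ (r + 1) = bk am bp * δ ^ r + bk (lop W Y E) F' * δ ^ r := by
    rw [← hz', G'.hop_eq, ← add_mul, ← hδ, pow_succ']
  rw [h1, map_add, trace_bk (hcomm (dneg am ham) r),
    trace_bk (hcomm (dpos _ G'.lop_mem) r), add_zero]

end

end Pool.Agent.N190.JM
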