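import Pool.Agent.N190.JM.Rat

/-!
# One pair of cycles for all cohomology theories
-/

open CategoryTheory AlgebraicGeometry Finset Polynomial

universe u v

namespace Pool.Agent.N190.JM

open Pool.Agent.H914 Pool.Agent.H447 VarClass Obj WeilCohomology Pool.Agent.W498.Dom Pool.Agent.W537

variable {k : Type u} [Field k] {𝒱 : VarClass k} {ops : CycleOps 𝒱} {X Y : 𝒱.Obj}

lemma cyc_mem {W : WeilCohomology.{u, v} ops} {z : (X.prod Y).Cycles}
    (hz : (X.prod Y).IsCyc X.dim z) {i : ℕ} {a : W.H X} (ha : a ∈ W.gr X i) :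
    W.corr (W.cl _ z) a ∈ W.gr Y i := by
  have h1 := KOp.isHom (KOp.gen (W := W) (d := 0) (by simp) hz) i a (by rw [grZ_natCast]; exact ha)
  rwa [mul_zero, add_zero, grZ_natCast] at h1

lemma kop_mem0 {W : WeilCohomology.{u, v} ops} {S : W.H X →ₗ[W.K] W.H Y} (hS : S ∈ KOp W X Y 0)
    {i : ℕ} {a : W.H X} (ha : a ∈ W.gr X i) : S a ∈ W.gr Y i := by
  have h1 := KOp.isHom hS i a (by rw [grZ_natCast]; exact ha)
  rwa [mul_zero, add_zero, grZ_natCast] at h1

lemma betti_le_of_inj {W : WeilCohomology.{u, v} ops} {S : W.H X →ₗ[W.K] W.H Y}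
    (h : ∀ i, ∀ a ∈ W.gr X i, S a ∈ W.gr Y i) (hinj : Function.Injective S) (i : ℕ) :
    W.betti X i ≤ W.betti Y i := by
  have h1 : Function.Injective (S.restrict (h i)) := by
    intro a b hab
    apply Subtype.ext
    exact hinj (congrArg Subtype.val hab)
  exact LinearMap.finrank_le_finrank_of_injective h1

/-- The Künneth projectors, for all theories with the same Betti numbers. -/
lemma exists_kunneth {D : X.Cycles} (hD : X.IsCyc 1 D) {W : WeilCohomology.{u, v} ops}
    (hHL : HardLefschetz W X D) (hB : LefschetzB W X D) (i : ℕ) (hi : i ≤ 2 * X.dim) :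
    ∃ P : ∀ W : WeilCohomology.{u, v} ops, Module.End W.K (W.H X), Realized ops X 0 P ∧
      ∀ W' : WeilCohomology.{u, v} ops, (∀ j, W'.betti X j = W.betti X j) →
        P W' = proj (W'.isInternal X) i := by
  obtain ⟨F, hF, hF'⟩ := exists_system hD le_rfl W (W550.B.exists_inverts hD hHL hB)
  have key : ∀ W' : WeilCohomology.{u, v} ops, (∀ j, W'.betti X j = W.betti X j) →
      ∀ j ≤ X.dim, IsInv (W'.gr X) X.dim (LL D W') (X.dim - j) (F j W') := by
    intro W' hW' j
    induction j using Nat.strong_induction_on with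
    | _ j ih =>
      intro hj
      exact (hF' W' j hj (fun l hl => ih l hl (by omega))).2 (hW' j).le
  have hLr : Realized.{u, v} ops X 1 (LL D) := (Realized.mulLeft hD).cast Nat.cast_one
  by_cases h : i ≤ X.dim
  · refine ⟨fun W => F i W * LL D W ^ (X.dim - i),
      ((hF i h).mul (hLr.pow (X.dim - i))).cast (by ring), fun W' hW' => ?_⟩
    beta_reduce
    rw [isInv_mul_pow hD W' (by omega) (key W' hW' i h), show X.dim - (X.dim - i) = i by omega]
  · refine ⟨fun W => LL D W ^ (X.dim - (2 * X.dim - i)) * F (2 * X.dim - i) W,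
      ((hLr.pow (X.dim - (2 * X.dim - i))).mul (hF (2 * X.dim - i) (by omega))).cast (by ring),
      fun W' hW' => ?_⟩
    beta_reduce
    rw [pow_mul_isInv hD W' (by omega) (key W' hW' (2 * X.dim - i) (by omega)),
      show X.dim + (X.dim - (2 * X.dim - i)) = i by omega]

/-- An operator of degree zero which is the identity for one theory is invertible, by one
polynomial, for all theories with the same Betti numbers. -/
lemma exists_inverse {D : X.Cycles} (hD : X.IsCyc 1 D) {W : WeilCohomology.{u, v} ops}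
    (hHL : HardLefschetz W X D) (hB : LefschetzB W X D)
    {E : ∀ W : WeilCohomology.{u, v} ops, Module.End W.K (W.H X)} (hE : Realized ops X 0 E)
    (hEW : E W = 1) :
    ∃ R : ∀ W : WeilCohomology.{u, v} ops, Module.End W.K (W.H X), Realized ops X 0 R ∧
      ∀ W' : WeilCohomology.{u, v} ops, (∀ j, W'.betti X j = W.betti X j) → R W' * E W' = 1 := by
  set M := ∑ i ∈ range (2 * X.dim + 1), W.betti X i with hM
  refine ⟨fun W => ∑ j ∈ range M, (1 - E W) ^ j, Realized.sum (fun j _ =>
    (Realized.one.sub hE).pow0 j), fun W' hW' => ?_⟩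
  apply gr_ext (W'.isInternal X)
  intro i a ha
  rw [Module.End.one_apply]
  by_cases hi : 2 * X.dim < i
  · rw [W'.gr_eq_bot X i hi] at ha
    rw [(Submodule.mem_bot _).1 ha, map_zero]
  obtain ⟨P, hP, hP'⟩ := exists_kunneth hD hHL hB i (by omega)
  have e1 := hP' W' hW'
  have e2 := hP' W (fun _ => rfl)
  have hE0 : IsHom (W'.gr X) 0 (E W') := by simpa using hE.isHom W'
  set p := proj (W'.isInternal X) i with hp
  have hpE : p * E W' = E W' * p := (hE0.proj_comm (W'.isInternal X) i)
  set e := p * E W' with he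
  have hpp : p * p = p := proj_mul_proj _ i
  have hpe : p * e = e := by rw [he, ← mul_assoc, hpp]
  have hep : e * p = e := by rw [he, mul_assoc, ← hpE, ← mul_assoc, hpp]
  have htr : ∀ r : ℕ, LinearMap.trace W'.K (W'.H X) (e ^ (r + 1)) =
      Module.finrank W'.K (W'.gr X i) := by
    intro r
    have hPE : Realized ops X 0 (fun W => P W * E W) := (hP.mul hE).cast (by ring)
    obtain ⟨q, hq⟩ := str_indep (hPE.pow0 (r + 1))
    have q1 := hq W
    have q2 := hq W'
    beta_reduce at q1 q2
    have hproj : ∀ r : ℕ, proj (W.isInternal X) i ^ (r + 1) = proj (W.isInternal X) i := by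
      intro r
      induction r with
      | zero => simp
      | succ r ih => rw [pow_succ, ih, proj_mul_proj]
    rw [e2, hEW, mul_one, hproj r, str_supp W (proj_mul_proj _ i), trace_proj] at q1
    rw [e1, ← he, str_supp W' (i := i) (by rw [← hp, pow_succ', ← mul_assoc, hpe])] at q2
    have q3 : q = (-1) ^ i * (W.betti X i : ℚ) := by
      have : ((q : ℚ) : W.K) = (((-1) ^ i * (W.betti X i : ℚ) : ℚ) : W.K) := by
        rw [← q1]; push_cast; rfl
      exact_mod_cast this
    rw [q3, ← hW' i] at q2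
    push_cast at q2
    have h4 : ((-1 : W'.K) ^ i) ≠ 0 := pow_ne_zero _ (by norm_num)
    exact mul_left_cancel₀ h4 q2
  have hMi : Module.finrank W'.K (W'.gr X i) ≤ M := by
    have h1 : Module.finrank W'.K (W'.gr X i) = W.betti X i := hW' i
    rw [h1, hM]
    exact Finset.single_le_sum (f := fun i => W.betti X i) (fun _ _ => Nat.zero_le _)
      (Finset.mem_range.2 (by omega))
  have hun := unipotent_of_trace_pow (W'.isInternal X) hpe hep htr hMi a ha
  have hpow : ∀ m : ℕ, ((1 - E W') ^ m) a = ((1 - e) ^ m) a ∧ ((1 - e) ^ m) a ∈ W'.gr X i := by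
    intro m
    induction m with
    | zero => exact ⟨by simp, by simpa using ha⟩
    | succ m ih =>
      obtain ⟨h1, h2⟩ := ih
      have hEm : E W' (((1 - e) ^ m) a) ∈ W'.gr X i := by
        have := hE0 i _ (show ((1 - e) ^ m) a ∈ grZ (W'.gr X) i by rw [grZ_natCast]; exact h2)
        rwa [add_zero, grZ_natCast] at this
      have hee : e (((1 - e) ^ m) a) = E W' (((1 - e) ^ m) a) := by
        rw [he, Module.End.mul_apply, hp, proj_same _ hEm]
      refine ⟨?_, ?_⟩
      · rw [pow_succ', pow_succ', Module.End.mul_apply, Module.End.mul_apply, h1,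
          LinearMap.sub_apply, LinearMap.sub_apply, hee]
      · rw [pow_succ', Module.End.mul_apply, LinearMap.sub_apply, hee, Module.End.one_apply]
        exact Submodule.sub_mem _ h2 hEm
  exact geom_inv (E := E W') (M := M) (by rw [(hpow M).1, hun])

/-- **One pair of mutually inverse cycles for all theories.** -/
theorem exists_pair {D : X.Cycles} (hdim : X.dim = Y.dim) (hD : X.IsCyc 1 D)
    {W : WeilCohomology.{u, v} ops} (hHL : HardLefschetz W X D) (hB : LefschetzB W X D)
    {S : W.H X →ₗ[W.K] W.H Y} {S' : W.H Y →ₗ[W.K] W.H X} (hS : S ∈ KOp W X Y 0)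
    (hS' : S' ∈ KOp W Y X 0) (h1 : ∀ x, S' (S x) = x) (h2 : ∀ y, S (S' y) = y) :
    ∃ z z', (X.prod Y).IsCyc X.dim z ∧ (Y.prod X).IsCyc X.dim z' ∧
      ∀ W' : WeilCohomology.{u, v} ops, (∀ i, W'.betti X i = W.betti X i) →
        (∀ i, W'.betti Y i = W.betti Y i) →
        (∀ x, W'.corr (W'.cl _ z') (W'.corr (W'.cl _ z) x) = x) ∧
        ∀ y, W'.corr (W'.cl _ z) (W'.corr (W'.cl _ z') y) = y := by
  have iS : Function.Injective S := fun a b hab => by rw [← h1 a, ← h1 b, hab]
  have iS' : Function.Injective S' := fun a b hab => by rw [← h2 a, ← h2 b, hab]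
  obtain ⟨z₀, hz₀, i₀⟩ := exists_cycle_inj hS iS
  obtain ⟨z₁, hz₁, i₁⟩ := exists_cycle_inj hS' iS'
  set t := compCyc ops z₀ z₁ with ht
  have htc : (X.prod X).IsCyc X.dim t := compCyc_mem hz₀ hz₁ (by omega)
  set c : ∀ W : WeilCohomology.{u, v} ops, Module.End W.K (W.H X) :=
    fun W => W.corr (W.cl _ t) with hc
  have hcr : Realized ops X 0 c := Or.inl ⟨X.dim, by simp, t, htc, fun _ => rfl⟩
  have hcv : ∀ (W' : WeilCohomology.{u, v} ops) (x : W'.H X),
      c W' x = W'.corr (W'.cl _ z₁) (W'.corr (W'.cl _ z₀) x) := by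
    intro W' x
    rw [hc]
    beta_reduce
    rw [ht, corr_compCyc W' hz₁]
    rfl
  have hcinj : Function.Injective (c W) := by
    intro a b hab
    rw [hcv, hcv] at hab
    exact i₀ (i₁ hab)
  have hK : KunnethStd W X := by
    intro i
    by_cases hi : i ≤ 2 * X.dim
    · obtain ⟨P, hP, hP'⟩ := exists_kunneth hD hHL hB i hi
      obtain ⟨q, hq, w, hw, hPw⟩ | ⟨hneg, -⟩ := hP
      · obtain rfl : q = X.dim := by omega
        refine ⟨w, hw, fun j a ha => ?_⟩
        rw [← hPw W, hP' W (fun _ => rfl)]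
        split_ifs with hij
        · subst hij; exact proj_same _ ha
        · exact proj_ne _ ha (fun h => hij h)
      · omega
    · refine ⟨0, SmVar.IsCyc.zero _ _, fun j a ha => ?_⟩
      rw [map_zero, corr_zero, LinearMap.zero_apply]
      split_ifs with hij
      · subst hij
        rw [W.gr_eq_bot X j (by omega)] at ha
        exact ((Submodule.mem_bot _).1 ha).symm
      · rfl
  obtain ⟨G, hG⟩ := exists_inv_poly hcinj (fun l => trace_rat hK
    ((rop_opAlg (W := W) (X := X)).cast ((rop_opAlg (W := W) (X := X)).pow ⟨c, hcr, rfl⟩ l)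
      (by ring)))
  set E : ∀ W : WeilCohomology.{u, v} ops, Module.End W.K (W.H X) :=
    fun W => ev (c W) G * c W with hE
  have hEr : Realized ops X 0 E := ((hcr.ev G).mul hcr).cast (by ring)
  obtain ⟨R, hR, hRE⟩ := exists_inverse hD hHL hB hEr hG
  have hRG : Realized ops X 0 (fun W => R W * ev (c W) G) := (hR.mul (hcr.ev G)).cast (by ring)
  obtain ⟨q, hq, r, hr, hrW⟩ | ⟨hneg, -⟩ := hRG
  swap
  · omega
  obtain rfl : q = X.dim := by omega
  refine ⟨z₀, compCyc ops z₁ r, hz₀, compCyc_mem hz₁ hr (by omega), fun W' hX hY => ?_⟩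
  have k1 : ∀ x, W'.corr (W'.cl _ (compCyc ops z₁ r)) (W'.corr (W'.cl _ z₀) x) = x := by
    intro x
    rw [corr_compCyc W' hr, LinearMap.comp_apply, ← hcv, ← hrW W']
    have h3 := LinearMap.congr_fun (hRE W' hX) x
    rw [hE] at h3
    simp only [Module.End.mul_apply, Module.End.one_apply] at h3 ⊢
    exact h3
  refine ⟨k1, fun y => ?_⟩
  have hin : Function.Injective (W'.corr (W'.cl _ z₀)) := fun a b hab => by
    rw [← k1 a, ← k1 b, hab]
  refine gr_induction (W'.isInternal Y) (p := fun y =>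
    W'.corr (W'.cl _ z₀) (W'.corr (W'.cl _ (compCyc ops z₁ r)) y) = y) ?_ ?_ y
  · intro i y hy
    have hb : Module.finrank W'.K (W'.gr X i) = Module.finrank W'.K (W'.gr Y i) := by
      have e1 : W.betti X i = W.betti Y i := le_antisymm
        (betti_le_of_inj (fun i a ha => kop_mem0 hS ha) iS i)
        (betti_le_of_inj (fun i a ha => kop_mem0 hS' ha) iS' i)
      have e2 : W'.betti X i = W'.betti Y i := by rw [hX, hY, e1]
      exact e2
    have hres : Function.Injective ((W'.corr (W'.cl _ z₀)).restrict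
        (fun a ha => cyc_mem hz₀ ha : ∀ a ∈ W'.gr X i, W'.corr (W'.cl _ z₀) a ∈ W'.gr Y i)) := by
      intro a b hab
      apply Subtype.ext
      exact hin (congrArg Subtype.val hab)
    obtain ⟨x, hx⟩ := (LinearMap.injective_iff_surjective_of_finrank_eq_finrank hb).1 hres ⟨y, hy⟩
    have hx' : W'.corr (W'.cl _ z₀) x.1 = y := congrArg Subtype.val hx
    rw [← hx', k1]
  · intro a b ha hb
    rw [map_add, map_add, ha, hb]

end Pool.Agent.N190.JM
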