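import Pool.Agent.N190.JM.Stm
import Pool.Agent.N190.JM.Pair
import Pool.Agent.N190.Ns.Main

/-!
# Isomorphisms of motives from mutually inverse cycles
-/

open CategoryTheory AlgebraicGeometry Finset

universe u v w w'

namespace Pool.Agent.N190.JMS

open Pool.Agent.H914 Pool.Agent.N190.Opp Pool.Agent.N190.JLS VarClass Obj WeilCohomology

variable {k : Type u} [Field k] {𝒱 : VarClass k} {ops : CycleOps 𝒱}

section

variable (𝓜 : Motives.{u, w, w'} ops) {X Y Z : 𝒱.Obj}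

lemma isCyc_sub {p : ℕ} {z z' : X.Cycles} (hz : X.IsCyc p z) (hz' : X.IsCyc p z') :
    X.IsCyc p (z - z') := by
  rw [sub_eq_add_neg, ← neg_one_smul ℚ z']
  exact SmVar.IsCyc.add hz (SmVar.IsCyc.smul _ hz')

/-- The morphisms given by cycles. -/
def IsC (f : 𝓜.h X ⟶ 𝓜.h Y) : Prop := ∃ z : (X.prod Y).Cycles, (X.prod Y).IsCyc X.dim z ∧
  𝓜.cls X Y z = f

lemma cls_zero : 𝓜.cls X Y (0 : (X.prod Y).Cycles) = 0 := by
  have h := 𝓜.add X Y (0 : (X.prod Y).Cycles) (0 : (X.prod Y).Cycles)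
  rw [add_zero] at h
  exact left_eq_add.1 h

lemma cls_sub (z z' : (X.prod Y).Cycles) : 𝓜.cls X Y (z - z') = 𝓜.cls X Y z - 𝓜.cls X Y z' := by
  rw [eq_sub_iff_add_eq, ← 𝓜.add X Y, sub_add_cancel]

variable {𝓜}

lemma IsC.comp {f : 𝓜.h X ⟶ 𝓜.h Y} {f' : 𝓜.h Y ⟶ 𝓜.h Z} (hf : IsC 𝓜 f) (hf' : IsC 𝓜 f') :
    IsC 𝓜 (f ≫ f') := by
  obtain ⟨z, hz, rfl⟩ := hf
  obtain ⟨z', hz', rfl⟩ := hf'
  exact ⟨compCyc ops z z', compCyc_mem hz hz' rfl, 𝓜.comp X Y Z z z' hz hz'⟩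

lemma IsC.add {f f' : 𝓜.h X ⟶ 𝓜.h Y} (hf : IsC 𝓜 f) (hf' : IsC 𝓜 f') : IsC 𝓜 (f + f') := by
  obtain ⟨z, hz, rfl⟩ := hf
  obtain ⟨z', hz', rfl⟩ := hf'
  exact ⟨z + z', SmVar.IsCyc.add hz hz', 𝓜.add _ _ _ _⟩

lemma IsC.one : IsC 𝓜 (𝟙 (𝓜.h X)) := ⟨_, Ns.diagCyc_mem, 𝓜.one X⟩

lemma IsC.zero : IsC 𝓜 (0 : 𝓜.h X ⟶ 𝓜.h Y) := ⟨0, SmVar.IsCyc.zero _ _, cls_zero 𝓜⟩

/-- The geometric series. -/
lemma exists_geom {a : 𝓜.h X ⟶ 𝓜.h X} (ha : IsC 𝓜 a) (n : ℕ) :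
    ∃ b : 𝓜.h X ⟶ 𝓜.h X, IsC 𝓜 b ∧ (𝟙 _ - a) ≫ b = 𝟙 _ - power a n ∧
      b ≫ (𝟙 _ - a) = 𝟙 _ - power a n ∧ IsC 𝓜 (power a n) ∧ a ≫ power a n = power a n ≫ a := by
  induction n with
  | zero => exact ⟨0, IsC.zero, by simp [power], by simp [power], IsC.one, by simp [power]⟩
  | succ n ih =>
    obtain ⟨b, hb, h1, h2, h3, h4⟩ := ih
    refine ⟨b + power a n, hb.add h3, ?_, ?_, h3.comp ha, ?_⟩
    · rw [Preadditive.comp_add, h1, Preadditive.sub_comp, Category.id_comp, h4, power]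
      abel
    · rw [Preadditive.add_comp, h2, Preadditive.comp_sub, Category.comp_id, power]
      abel
    · rw [power, ← Category.assoc, h4]

/-- Mutually inverse cycles in cohomology give isomorphic motives. -/
theorem iso_of_pair {W : WeilCohomology.{u, v} ops} (hdim : X.dim = Y.dim)
    {z : (X.prod Y).Cycles} {z' : (Y.prod X).Cycles} (hz : (X.prod Y).IsCyc X.dim z)
    (hz' : (Y.prod X).IsCyc X.dim z') (h : AreInverse W X Y z z')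
    (nX : KernelNilpotent W 𝓜 X) (nY : KernelNilpotent W 𝓜 Y) : GivesIso 𝓜 X Y z := by
  have hz'' : (Y.prod X).IsCyc Y.dim z' := by rw [← hdim]; exact hz'
  have key : ∀ {A B : 𝒱.Obj} {z : (A.prod B).Cycles} {z' : (B.prod A).Cycles},
      (A.prod B).IsCyc A.dim z → (B.prod A).IsCyc B.dim z' → AreInverse W A B z z' →
      KernelNilpotent W 𝓜 A → ∃ b : 𝓜.h A ⟶ 𝓜.h A, IsC 𝓜 b ∧
        (𝓜.cls A B z ≫ 𝓜.cls B A z' : 𝓜.h A ⟶ 𝓜.h A) ≫ b = 𝟙 _ ∧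
        b ≫ (𝓜.cls A B z ≫ 𝓜.cls B A z' : 𝓜.h A ⟶ 𝓜.h A) = 𝟙 _ := by
    intro A B z z' hz hz' h nA
    set t := Ns.diagCyc ops A - compCyc ops z z' with ht
    have htc : (A.prod A).IsCyc A.dim t :=
      isCyc_sub Ns.diagCyc_mem (compCyc_mem hz hz' rfl)
    have ht0 : W.cl _ t = 0 := by
      apply corr_bijective.1
      apply LinearMap.ext
      intro x
      change W.corr (W.cl _ t) x = W.corr 0 x
      rw [ht, map_sub, Pool.Agent.W534.corr_sub'', Ns.corr_diagCyc, corr_compCyc W hz',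
        LinearMap.sub_apply, LinearMap.comp_apply, Module.End.one_apply, corr_zero,
        LinearMap.zero_apply, sub_eq_zero]
      exact (h.1 x).symm
    obtain ⟨n, hn⟩ := nA t htc ht0
    obtain ⟨b, hb, h1, h2, -, -⟩ := exists_geom (𝓜 := 𝓜) (a := 𝓜.cls A A t) ⟨t, htc, rfl⟩ n
    have e : (𝟙 (𝓜.h A) - 𝓜.cls A A t : 𝓜.h A ⟶ 𝓜.h A) = 𝓜.cls A B z ≫ 𝓜.cls B A z' := by
      have e1 := 𝓜.comp A B A z z' hz hz'
      have e2 := 𝓜.one A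
      rw [ht, cls_sub, ← e1, Ns.diagCyc, e2, sub_sub_cancel]
    rw [e, hn, sub_zero] at h1 h2
    exact ⟨b, hb, h1, h2⟩
  obtain ⟨b, hb, h1, -⟩ := key hz hz'' h nX
  obtain ⟨c, hc, -, h4⟩ := key hz'' hz ⟨h.2, h.1⟩ nY
  obtain ⟨y, hy, hyc⟩ := (IsC.comp ⟨z', hz'', rfl⟩ hb : IsC 𝓜 (𝓜.cls Y X z' ≫ b))
  refine ⟨y, hy, by rw [hyc, ← Category.assoc, h1], ?_⟩
  have e1 : 𝓜.cls Y X y = c ≫ 𝓜.cls Y X z' := by
    calc 𝓜.cls Y X y = (c ≫ 𝓜.cls Y X z' ≫ 𝓜.cls X Y z) ≫ 𝓜.cls Y X y := by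
          rw [h4, Category.id_comp]
      _ = c ≫ 𝓜.cls Y X z' ≫ (𝓜.cls X Y z ≫ 𝓜.cls Y X y) := by simp only [Category.assoc]
      _ = c ≫ 𝓜.cls Y X z' := by rw [hyc, ← Category.assoc (𝓜.cls X Y z), h1, Category.comp_id]
  rw [e1, Category.assoc, h4]

end

end Pool.Agent.N190.JMS
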