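import Pool.Agent.N190.JM.Rank
import Pool.Agent.W537.OneCycleB
import Pool.Agent.W550.B.Top
import Pool.Agent.N190.Sd.Rat

/-!
# Rational cycles and all cohomology theories
-/

open CategoryTheory AlgebraicGeometry Finset Polynomial

universe u v

namespace Pool.Agent.N190.JM

open Pool.Agent.H914 VarClass Obj WeilCohomology Pool.Agent.W498.Dom Pool.Agent.W537

variable {k : Type u} [Field k] {𝒱 : VarClass k} {ops : CycleOps 𝒱} {X Y : 𝒱.Obj}

section point

variable {K : Type*} [Field K] [CharZero K] {V V' : Type*} [AddCommGroup V] [Module K V]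
  [Module.Finite K V] [AddCommGroup V'] [Module K V']

lemma exists_nat_nonroot (p : K[X]) (hp : p ≠ 0) (c : K) : ∃ N : ℕ, p.eval ((N : K) - c) ≠ 0 := by
  by_contra hcon
  push Not at hcon
  have h1 : (p.comp (Polynomial.X - C c)) = 0 := by
    apply Polynomial.eq_zero_of_infinite_isRoot
    apply Set.Infinite.mono (s := Set.range (fun N : ℕ => (N : K)))
    · rintro _ ⟨N, rfl⟩
      change (p.comp (Polynomial.X - C c)).eval (N : K) = 0
      rw [eval_comp]
      simpa using hcon N
    · exact Set.infinite_range_of_injective Nat.cast_injective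
  apply hp
  have h2 := congrArg (fun q : K[X] => q.comp (Polynomial.X + C c)) h1
  simp only [comp_assoc, sub_comp, X_comp, C_comp, add_sub_cancel_right, comp_X, zero_comp] at h2
  exact h2

/-- A linear combination of operators in an additive subgroup which is injective can be replaced by
an element of the subgroup. -/
lemma exists_point (A : AddSubgroup (V →ₗ[K] V')) (n : ℕ) :
    ∀ (f : Fin n → K) (g : Fin n → A) (T₀ : A),
      Function.Injective ((T₀ : V →ₗ[K] V') + ∑ i, f i • (g i : V →ₗ[K] V')) →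
      ∃ T : A, Function.Injective (T : V →ₗ[K] V') := by
  induction n with
  | zero =>
    intro f g T₀ h
    exact ⟨T₀, by simpa using h⟩
  | succ n ih =>
    intro f g T₀ h
    rw [Fin.sum_univ_succ] at h
    set B : V →ₗ[K] V' := ∑ i : Fin n, f i.succ • (g i.succ : V →ₗ[K] V') with hB
    have hfam : PFam (fun s : K => ((T₀ : V →ₗ[K] V') + B) + (s + f 0) • (g 0 : V →ₗ[K] V')) := by
      have h1 : PFam (fun s : K => (s + f 0) • (g 0 : V →ₗ[K] V')) := by
        have := (PFam.const (K := K) (g 0 : V →ₗ[K] V')).smul (Polynomial.X + C (f 0))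
        simpa using this
      exact (PFam.const _).add h1
    obtain ⟨p, hp, hps⟩ := hfam.generic_inj (by
      have h2 : ((T₀ : V →ₗ[K] V') + B) + (0 + f 0) • (g 0 : V →ₗ[K] V') =
          (T₀ : V →ₗ[K] V') + (f 0 • (g 0 : V →ₗ[K] V') + B) := by
        rw [zero_add]; abel
      rw [h2]; exact h)
    obtain ⟨N, hN⟩ := exists_nat_nonroot p hp (f 0)
    have h3 := hps _ hN
    refine ih (fun i => f i.succ) (fun i => g i.succ) (T₀ + N • g 0) ?_
    have h4 : ((T₀ + N • g 0 : A) : V →ₗ[K] V') + ∑ i : Fin n, f i.succ •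
        (g i.succ : V →ₗ[K] V') =
        ((T₀ : V →ₗ[K] V') + B) + ((N : K) - f 0 + f 0) • (g 0 : V →ₗ[K] V') := by
      rw [sub_add_cancel, ← hB]
      push_cast
      rw [← Nat.cast_smul_eq_nsmul K]
      abel
    rw [h4]; exact h3

end point

/-- The operators given by cycles of codimension `dim X`. -/
def cycOps (W : WeilCohomology.{u, v} ops) (X Y : 𝒱.Obj) :
    AddSubgroup (W.H X →ₗ[W.K] W.H Y) where
  carrier := {T | ∃ z, (X.prod Y).IsCyc X.dim z ∧ W.corr (W.cl _ z) = T}
  add_mem' := by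
    rintro _ _ ⟨z, hz, rfl⟩ ⟨w, hw, rfl⟩
    exact ⟨z + w, hz.add hw, by rw [map_add, corr_add]⟩
  zero_mem' := ⟨0, SmVar.IsCyc.zero _ _, by rw [map_zero, corr_zero]⟩
  neg_mem' := by
    rintro _ ⟨z, hz, rfl⟩
    refine ⟨(-1 : ℚ) • z, hz.smul _, ?_⟩
    rw [cl_smul, corr_smul, Rat.cast_neg, Rat.cast_one]
    exact neg_one_smul W.K (W.corr (W.cl (X.prod Y) z))

/-- **An injective combination of cycles can be replaced by a cycle.** -/
theorem exists_cycle_inj {W : WeilCohomology.{u, v} ops} {S : W.H X →ₗ[W.K] W.H Y}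
    (hS : S ∈ KOp W X Y 0) (hinj : Function.Injective S) :
    ∃ z, (X.prod Y).IsCyc X.dim z ∧ Function.Injective (W.corr (W.cl _ z)) := by
  rw [KOp, Submodule.mem_span_set'] at hS
  obtain ⟨n, f, g, hsum⟩ := hS
  have hg : ∀ i, (g i : W.H X →ₗ[W.K] W.H Y) ∈ cycOps W X Y := by
    intro i
    obtain ⟨p, hp, z, hz, hzT⟩ := (g i).2
    obtain rfl : p = X.dim := by omega
    exact ⟨z, hz, hzT⟩
  obtain ⟨⟨T, z, hz, hzT⟩, hT⟩ := exists_point (cycOps W X Y) n f (fun i => ⟨g i, hg i⟩) 0
    (by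
      have h1 : ((0 : cycOps W X Y) : W.H X →ₗ[W.K] W.H Y) +
          ∑ i, f i • ((⟨g i, hg i⟩ : cycOps W X Y) : W.H X →ₗ[W.K] W.H Y) = S := by
        rw [AddSubgroup.coe_zero, zero_add]
        exact hsum
      rw [h1]; exact hinj)
  exact ⟨z, hz, by rw [hzT]; exact hT⟩

/-- Rational traces. -/
lemma trace_rat {W : WeilCohomology.{u, v} ops} (hK : KunnethStd W X)
    {y : Module.End W.K (W.H X)} (hy : ROp W X 0 y) :
    ∃ q : ℚ, LinearMap.trace W.K (W.H X) y = (q : W.K) := by
  have hpar : ROp W X 0 (par (W.isInternal X)) := by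
    have h1 := rop_scal hK (fun i => (-1 : ℚ) ^ i)
    have h2 : scal (W.isInternal X) (fun i => (((-1 : ℚ) ^ i : ℚ) : W.K)) =
        par (W.isInternal X) := by
      rw [par]
      congr 1
      funext i
      push_cast; rfl
    rwa [h2] at h1
  have h3 := rop_mul0 hpar hy
  obtain ⟨Θ, hΘ, hΘW⟩ := h3
  obtain ⟨q, hq⟩ := str_indep hΘ
  refine ⟨q, ?_⟩
  have h4 := hq W
  rw [hΘW, ← mul_assoc, par_mul_par, one_mul] at h4
  exact h4

/-- A rational polynomial inverse of an injective operator with rational traces. -/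
lemma exists_inv_poly {K : Type*} [Field K] [CharZero K] {V : Type*} [AddCommGroup V]
    [Module K V] [Module.Finite K V] {c : Module.End K V} (hinj : Function.Injective c)
    (h : ∀ l : ℕ, ∃ q : ℚ, LinearMap.trace K V (c ^ l) = (q : K)) :
    ∃ G : ℚ[X], ev c G * c = 1 := by
  obtain ⟨χ, -, hχ⟩ := Pool.Agent.N190.Sd.exists_charpoly c h
  have h0 : χ.coeff 0 ≠ 0 := by
    intro h0
    have h1 : LinearMap.det c = 0 := by
      rw [LinearMap.det_eq_sign_charpoly_coeff, ← hχ, coeff_map, h0, map_zero, mul_zero]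
    have h2 : IsUnit (LinearMap.det c) := by
      rw [← LinearMap.isUnit_iff_isUnit_det, Module.End.isUnit_iff]
      exact ⟨hinj, LinearMap.injective_iff_surjective.1 hinj⟩
    exact h2.ne_zero h1
  have h1 : ev c χ = 0 := by
    rw [ev_apply, hχ]
    exact LinearMap.aeval_self_charpoly c
  refine ⟨C (-(χ.coeff 0)⁻¹) * divX χ, ?_⟩
  have h2 : ev c (divX χ) * c = -((χ.coeff 0 : ℚ) : K) • (1 : Module.End K V) := by
    have h3 := congrArg (ev c) (divX_mul_X_add χ)
    rw [map_add, map_mul, ev_X, ev_C, h1] at h3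
    rw [neg_smul]
    exact eq_neg_of_add_eq_zero_left h3
  have h4 : ((χ.coeff 0 : ℚ) : K) ≠ 0 := by exact_mod_cast h0
  rw [map_mul, ev_C, mul_assoc, h2, smul_mul_assoc, one_mul, smul_smul]
  have h5 : (((-(χ.coeff 0)⁻¹ : ℚ)) : K) * -((χ.coeff 0 : ℚ) : K) = 1 := by
    push_cast
    rw [neg_mul_neg, inv_mul_cancel₀ h4]
  rw [h5, one_smul]

end Pool.Agent.N190.JM
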