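import Pool.Agent.N190.JL.Stm
import Pool.Agent.H914R2.CorrDefs

/-!
# Algebraic isomorphisms of Jordan-Lefschetz algebras and motives: statements
-/

open CategoryTheory AlgebraicGeometry

universe u v w w'

namespace Pool.Agent.N190.JMS

open Pool.Agent.H914 Pool.Agent.N190.Opp Pool.Agent.N190.JLS VarClass Obj WeilCohomology

section

variable {K A B : Type v} [Field K] [Ring A] [Algebra K A] [Ring B] [Algebra K B]

/-- The linear map `s : A → B` preserves the degrees, `s 1 = 1`, and `s (x y) = s x * s y` for all
`y` and for those `x` of degree `2` for which the multiplication by `x` lies in `g`. -/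
structure IsMultiplicative (G : ℕ → Submodule K A) (G' : ℕ → Submodule K B)
    (g : Set (A →ₗ[K] A)) (s : A →ₗ[K] B) : Prop where
  degree : ∀ i, ∀ x ∈ G i, s x ∈ G' i
  one : s 1 = 1
  mul : ∀ x ∈ G 2, LinearMap.mulLeft K x ∈ g → ∀ y, s (x * y) = s x * s y

/-- For some list of elements of `g`, with product `a`, the operator `u a` has the property
`IsNonzeroOn T T'`: for `x ≠ 0` in `T` the product of `u (a x)` with some element of `T'` is not
zero. -/
def IsNonzeroAfter (g : Set (A →ₗ[K] A)) (T : Submodule K A) (T' : Submodule K B)
    (u : A →ₗ[K] B) : Prop :=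
  ∃ l : List (A →ₗ[K] A), (∀ w ∈ l, w ∈ g) ∧ IsNonzeroOn T T' (u ∘ₗ compose l)

/-- The linear maps `s` and `s'` are mutually inverse. -/
def MutuallyInverse (s : A →ₗ[K] B) (s' : B →ₗ[K] A) : Prop :=
  (∀ x, s' (s x) = x) ∧ ∀ y, s (s' y) = y

end

section

/-- A realization of a composition law: let `C i j` be groups with a composition `c`, an element
`e i` of `C i i` and subsets `P`. A realization is a preadditive category with objects `h i` and
additive maps `cls` from `C i j` to the morphisms `h i → h j` which take the composition of
elements of the subsets `P` to the composition of morphisms and `e i` to the identity. -/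
structure Realization {ι : Type (u + 1)} (C : ι → ι → Type u) [∀ i j, AddCommGroup (C i j)]
    (P : ∀ i j, C i j → Prop) (c : ∀ i j l, C i j → C j l → C i l) (e : ∀ i, C i i) where
  /-- The objects. -/
  M : Type w
  category : Category.{w'} M
  preadditive : Preadditive M
  /-- The object belonging to the index `i`. -/
  h : ι → M
  /-- The morphism belonging to an element of `C i j`. -/
  cls : ∀ i j, C i j → (h i ⟶ h j)
  add : ∀ i j z w, cls i j (z + w) = cls i j z + cls i j w
  comp : ∀ i j l z w, P i j z → P j l w → cls i l (c i j l z w) = cls i j z ≫ cls j l w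
  one : ∀ i, cls i i (e i) = 𝟙 (h i)

attribute [instance] Realization.category Realization.preadditive

variable {ι : Type (u + 1)} {C : ι → ι → Type u} [∀ i j, AddCommGroup (C i j)]
  {P : ∀ i j, C i j → Prop} {c : ∀ i j l, C i j → C j l → C i l} {e : ∀ i, C i i}

/-- The `n`-fold composition of the endomorphism `f`. -/
def power {M : Type w} [Category.{w'} M] {A : M} (f : A ⟶ A) : ℕ → (A ⟶ A)
  | 0 => 𝟙 A
  | n + 1 => power f n ≫ f

/-- The classes of the elements `z` in `P` for which `N z` holds are nilpotent. -/
def NilpotentOn (𝓜 : Realization.{u, w, w'} C P c e) (i : ι) (N : C i i → Prop) : Prop :=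
  ∀ z, P i i z → N z → ∃ n : ℕ, power (𝓜.cls i i z) n = 0

/-- The class of `z` is an isomorphism, with an inverse which is the class of an element of `P`. -/
def IsIsoClass (𝓜 : Realization.{u, w, w'} C P c e) (i j : ι) (z : C i j) : Prop :=
  ∃ z', P j i z' ∧ 𝓜.cls i j z ≫ 𝓜.cls j i z' = 𝟙 _ ∧ 𝓜.cls j i z' ≫ 𝓜.cls i j z = 𝟙 _

end

variable {k : Type u} [Field k] {𝒱 : VarClass k} {ops : CycleOps 𝒱}

/-- The operators `u` and `v` are algebraic (given by combinations of cycles of all codimensions
with coefficients in the coefficient field), mutually inverse, and exchange the Lie algebras `g`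
and `g'`. -/
structure IsLieIsomorphism (W : WeilCohomology.{u, v} ops) (X Y : 𝒱.Obj)
    (g : Set (Mp W X X)) (g' : Set (Mp W Y Y)) (u : Mp W X Y) (v : Mp W Y X) : Prop where
  alg : IsAlgebraic W X Y u
  alg' : IsAlgebraic W Y X v
  carries : Carries g g' u v
  carries' : Carries g' g v u

/-- The operator `u a` has non-zero rank for some product `a` of algebraic elements of `g` (for
example `a = 1`, the empty product): for `x ≠ 0` in `H^(2 dim X)(X)` the component of `u (a x)` in
`H^0(Y)` is not zero, that is, its product with some class in `H^(2 dim Y)(Y)` is not zero. -/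
def HasRank (W : WeilCohomology.{u, v} ops) (X Y : 𝒱.Obj) (g : Set (Mp W X X)) (u : Mp W X Y) :
    Prop :=
  IsNonzeroAfter (algebraicElements W X g) (W.gr X (2 * X.dim)) (W.gr Y (2 * Y.dim)) u

/-- The operator in cohomology given by a cycle on `X × Y`. -/
noncomputable def cycleOperator (W : WeilCohomology.{u, v} ops) (X Y : 𝒱.Obj)
    (z : (X.prod Y).Cycles) : Mp W X Y := W.corr (W.cl _ z)

/-- The operators in cohomology given by the cycles `z` and `z'` are mutually inverse. -/
def AreInverse (W : WeilCohomology.{u, v} ops) (X Y : 𝒱.Obj) (z : (X.prod Y).Cycles)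
    (z' : (Y.prod X).Cycles) : Prop :=
  MutuallyInverse (cycleOperator W X Y z) (cycleOperator W Y X z')

/-- The theories `W` and `W'` have the same Betti numbers for `X`. -/
def SameBetti (W W' : WeilCohomology.{u, v} ops) (X : 𝒱.Obj) : Prop :=
  ∀ i, W'.betti X i = W.betti X i

/-- A category of motives: a preadditive category with an object `h X` for every variety `X`, and
with additive maps `cls` from the cycles on `X × Y` to the morphisms `h X → h Y` which take the
composition of correspondences of degree zero (cycles of codimension `dim X` on `X × Y`) to the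
composition of morphisms and the diagonal to the identity. (For example the category of Chow
motives.) -/
abbrev Motives (ops : CycleOps 𝒱) :=
  Realization.{u, w, w'} (ι := 𝒱.Obj) (fun X Y => (X.prod Y).Cycles)
    (fun X Y z => (X.prod Y).IsCyc X.dim z) (fun _ _ _ z w => compCyc ops z w)
    (fun X => ops.push (diag X) X.V.fundCycle)

/-- The classes in the category of motives of those correspondences of degree zero of `X` whose
class in the theory `W` is zero are nilpotent. (This is true for the Chow motive of `X` if it is
finite-dimensional in the sense of Kimura and O'Sullivan.) -/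
def KernelNilpotent (W : WeilCohomology.{u, v} ops) (𝓜 : Motives.{u, w, w'} ops) (X : 𝒱.Obj) :
    Prop := NilpotentOn 𝓜 X fun z => W.cl _ z = 0

/-- The class of the cycle `z` in the category of motives is an isomorphism from `h X` to `h Y`,
with an inverse which is the class of a cycle of codimension `dim Y` on `Y × X`. -/
def GivesIso (𝓜 : Motives.{u, w, w'} ops) (X Y : 𝒱.Obj) (z : (X.prod Y).Cycles) : Prop :=
  IsIsoClass 𝓜 X Y z

end Pool.Agent.N190.JMS
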