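import Pool.Agent.N190.JM.Conj
import Mathlib.LinearAlgebra.Semisimple

/-!
# Lie isomorphisms of degree zero
-/

open CategoryTheory AlgebraicGeometry Finset
open IsNilpotent (exp exp_eq_sum)

universe u v

namespace Pool.Agent.N190.JM

open Pool.Agent.H914 Pool.Agent.N190.Opp VarClass Obj WeilCohomology Pool.Agent.W498.Dom
  Pool.Agent.N190.JL

variable {k : Type u} [Field k] {𝒱 : VarClass k} {ops : CycleOps 𝒱}
  {W : WeilCohomology.{u, v} ops} {X Y : 𝒱.Obj} {D : X.Cycles} {E : Y.Cycles}
  {g : Submodule W.K (Module.End W.K (W.H X))} {g' : Submodule W.K (Module.End W.K (W.H Y))}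

attribute [local instance] ratModule

lemma cube (hg : IsJordanLefschetz W X D g) {d : ℤ} (hd : d = 2 ∨ d = -2)
    {f : Module.End W.K (W.H X)} (hf : f ∈ part W X g d) {a : Module.End W.K (W.H X)}
    (ha : a ∈ g) : bk f (bk f (bk f a)) = 0 := by
  rcases hd with rfl | rfl
  · obtain ⟨f', hf', z, hz, e, he, hf2, hz2, ⟨x, hx, hex⟩, hsum⟩ := hg.split a ha
    have he2 : IsHom (W.gr X) 2 e := by rw [hex]; exact isHom_cup hx
    have h1 : bk f e = 0 := lie_pos_pos hg hf ⟨he, he2⟩
    have h2 : bk f (bk f z) = 0 := by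
      apply lie_pos_pos hg hf
      have := part_lie hg hf (show z ∈ part W X g 0 from ⟨hz, hz2⟩)
      norm_num at this
      exact this
    have h3 : bk f (bk f (bk f f')) = 0 := by
      apply lie_pos_pos hg hf
      have := part_lie hg hf (part_lie hg hf (show f' ∈ part W X g (-2) from ⟨hf', hf2⟩))
      norm_num at this
      exact this
    rw [hsum, bk_add, bk_add, bk_add, bk_add, bk_add, bk_add, h1, bk_zero, bk_zero, h2, h3,
      bk_zero, add_zero, add_zero]
  · exact bk_cube hg hf ha

lemma nil_of_hom {d : ℤ} (hd : d = 2 ∨ d = -2) {f : Module.End W.K (W.H X)}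
    (hf : IsHom (W.gr X) d f) : IsNilpotent f := by
  refine ⟨2 * X.dim + 1, ?_⟩
  apply gr_ext (W.isInternal X)
  intro i a ha
  rw [LinearMap.zero_apply]
  by_cases hi : 2 * X.dim < i
  · rw [W.gr_eq_bot X i hi] at ha
    rw [(Submodule.mem_bot _).1 ha, map_zero]
  · apply hom_zero (hf.pow (2 * X.dim + 1)) ha
    rcases hd with rfl | rfl
    · right; push_cast; omega
    · left; push_cast; omega

lemma exp_conj (hg : IsJordanLefschetz W X D g) {d : ℤ} (hd : d = 2 ∨ d = -2)
    {f : Module.End W.K (W.H X)} (hf : f ∈ part W X g d) {a : Module.End W.K (W.H X)}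
    (ha : a ∈ g) : exp f * a * exp (-f) ∈ g := by
  have hn := nil_of_hom hd hf.2
  have h1 : exp f * a = (a + bk f a + (2⁻¹ : W.K) • bk f (bk f a)) * exp f := by
    apply exp_mul_bk hn
    · rw [bk_def]; abel
    · rw [bk_def f (bk f a)]; abel
    · have := cube hg hd hf ha
      rw [bk_def f (bk f (bk f a))] at this
      exact sub_eq_zero.1 this
  rw [h1, mul_assoc, IsNilpotent.exp_mul_exp_neg_self hn, mul_one]
  have m1 : bk f a ∈ g := lie_mem hg hf.1 ha
  exact Submodule.add_mem _ (Submodule.add_mem _ ha m1)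
    (Submodule.smul_mem _ _ (lie_mem hg hf.1 m1))

/-- The exponentials of the algebraic elements of degree `2` and `-2`. -/
lemma lieIso_exp (hg : IsJordanLefschetz W X D g) {d : ℤ} (hd : d = 2 ∨ d = -2)
    {f : Module.End W.K (W.H X)} (hf : f ∈ algP W X g d) :
    LieIso W X X g g (exp f) (exp (-f)) := by
  have hn := nil_of_hom hd hf.2
  have hf' : -f ∈ algP W X g d := Submodule.neg_mem _ hf
  refine ⟨exp_mix (alg_mix hf.1) hn, exp_mix (alg_mix hf'.1) hn.neg, ?_, ?_, ?_, ?_⟩
  · exact IsNilpotent.exp_neg_mul_exp_self hn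
  · exact IsNilpotent.exp_mul_exp_neg_self hn
  · intro a ha
    exact exp_conj hg hd (alg_part hf) ha
  · intro a ha
    have := exp_conj hg hd (alg_part hf') ha
    rwa [neg_neg] at this

lemma mul_neg_smul' {K V : Type*} [Field K] [AddCommGroup V] [Module K V] (f : Module.End K V)
    (c : K) : f * -(c • f) = -(c • f) * f := by
  apply LinearMap.ext
  intro x
  simp

/-- The degree operator and the exponentials. -/
lemma exp_hop {d : ℤ} (hd : d = 2 ∨ d = -2) {f : Module.End W.K (W.H X)}
    (hf : IsHom (W.gr X) d f) : exp f * hop W X = (hop W X - (d : W.K) • f) * exp f := by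
  have h0 : bk f (hop W X) = -((d : W.K) • f) := by rw [bk_skew, hop_lie hf]
  have h1 := exp_mul_bk (K := W.K) (nil_of_hom hd hf) (a := hop W X) (b := -((d : W.K) • f))
    (c := 0) (by rw [← h0, bk_def]; abel)
    (by rw [mul_neg_smul', add_zero]) (by simp)
  rw [h1, smul_zero, add_zero, sub_eq_add_neg]

section semisimple

open Polynomial

lemma aeval_hop (q : W.K[X]) {i : ℕ} {a : W.H X} (ha : a ∈ W.gr X i) :
    aeval (hop W X) q a = q.eval ((i : W.K) - X.dim) • a := by
  have h1 : hop W X a = ((i : W.K) - X.dim) • a := by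
    rw [show hop W X a = ((node X.dim i : ℚ) : W.K) • a from scal_apply (W.isInternal X) _ ha]
    congr 1
    unfold node
    push_cast; ring
  induction q using Polynomial.induction_on' with
  | add p q hp hq => rw [map_add, LinearMap.add_apply, hp, hq, eval_add, add_smul]
  | monomial m c =>
    have h2 : ∀ m : ℕ, (hop W X ^ m) a = (((i : W.K) - X.dim) ^ m) • a := by
      intro m
      induction m with
      | zero => simp
      | succ m ih => rw [pow_succ, Module.End.mul_apply, h1, map_smul, ih, smul_smul, pow_succ,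
          mul_comm]
    rw [aeval_monomial, eval_monomial, Module.End.mul_apply, h2, map_smul,
      Module.algebraMap_end_apply, smul_smul, mul_comm]

/-- The polynomial of the degree operator. -/
noncomputable def pol (W : WeilCohomology.{u, v} ops) (n : ℕ) : W.K[X] :=
  ∏ i ∈ range (2 * n + 1), (Polynomial.X - C ((i : W.K) - n))

lemma pol_squarefree (n : ℕ) : Squarefree (pol W n) := by
  apply Polynomial.Separable.squarefree
  rw [pol, Polynomial.separable_prod_X_sub_C_iff']
  intro i _ j _ h
  have h1 : (i : W.K) = j := by linear_combination h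
  exact_mod_cast h1

lemma aeval_pol : aeval (hop W X) (pol W X.dim) = 0 := by
  apply gr_ext (W.isInternal X)
  intro i a ha
  rw [LinearMap.zero_apply]
  by_cases hi : 2 * X.dim < i
  · rw [W.gr_eq_bot X i hi] at ha
    rw [(Submodule.mem_bot _).1 ha, map_zero]
  · rw [aeval_hop _ ha, pol, eval_prod, Finset.prod_eq_zero (Finset.mem_range.2
      (show i < 2 * X.dim + 1 by omega)), zero_smul]
    simp

lemma hop_ss : (hop W X).IsSemisimple :=
  Module.End.isSemisimple_of_squarefree_aeval_eq_zero (pol_squarefree X.dim) aeval_pol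

lemma ss_of_conj {z : Module.End W.K (W.H Y)} {T : W.H X →ₗ[W.K] W.H Y}
    (hT : Function.Surjective T) (h : ∀ x, z (T x) = T (hop W X x)) : z.IsSemisimple := by
  apply Module.End.isSemisimple_of_squarefree_aeval_eq_zero (pol_squarefree (W := W) X.dim)
  have h1 : ∀ (q : W.K[X]) (x : W.H X), aeval z q (T x) = T (aeval (hop W X) q x) := by
    intro q x
    induction q using Polynomial.induction_on' with
    | add p q hp hq => rw [map_add, map_add, LinearMap.add_apply, LinearMap.add_apply, hp, hq,
        map_add]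
    | monomial m c =>
      have h2 : ∀ (m : ℕ) (x : W.H X), (z ^ m) (T x) = T ((hop W X ^ m) x) := by
        intro m
        induction m with
        | zero => intro x; simp
        | succ m ih => intro x; rw [pow_succ, Module.End.mul_apply, h, ih, pow_succ,
            Module.End.mul_apply]
      rw [aeval_monomial, aeval_monomial, Module.End.mul_apply, Module.End.mul_apply, h2,
        Module.algebraMap_end_apply, Module.algebraMap_end_apply, map_smul]
  apply LinearMap.ext
  intro y
  obtain ⟨x, rfl⟩ := hT y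
  rw [h1, aeval_pol, LinearMap.zero_apply, map_zero, LinearMap.zero_apply]

end semisimple

section

variable {u : W.H X →ₗ[W.K] W.H Y} {v : W.H Y →ₗ[W.K] W.H X} {F : Module.End W.K (W.H X)}
  {F' : Module.End W.K (W.H Y)}

/-- **A Lie isomorphism of non-zero rank can be made to reverse the degrees.** -/
theorem exists_anti (h : LieIso W X Y g g' u v) (G : Good W X D g F) (G' : Good W Y E g' F')
    (hr : NonzeroRank W X Y u) (hr' : NonzeroRank W Y X v) :
    ∃ T T', LieIso W X Y g g' T T' ∧ ∀ x, T (hop W X x) = -hop W Y (T x) := by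
  obtain ⟨e₂, he₂, e', he', δ, hδn, hδ0, hδe, hN⟩ := cell h G G' hr hr'
  set y := -((2⁻¹ : W.K) • e') with hy
  have hym : y ∈ algP W Y g' 2 := Submodule.neg_mem _ (Submodule.smul_mem _ _ he')
  have he₂' : -e₂ ∈ algP W X g 2 := Submodule.neg_mem _ he₂
  have L1 := lieIso_exp G.hg (Or.inl rfl) he₂'
  have L2 := lieIso_exp G'.hg (Or.inl rfl) hym
  have L := (L1.trans h).trans L2
  set z := -hop W Y + δ with hz
  have hc : ∀ x, (exp y : Module.End W.K (W.H Y)) (u ((exp (-e₂) : Module.End W.K (W.H X))
      (hop W X x))) = z ((exp y : Module.End W.K (W.H Y))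
        (u ((exp (-e₂) : Module.End W.K (W.H X)) x))) := by
    intro x
    have e1 := LinearMap.congr_fun (exp_hop (W := W) (X := X) (Or.inl rfl) he₂'.2) x
    rw [Module.End.mul_apply, Module.End.mul_apply] at e1
    rw [e1]
    have e2 : hop W X - ((2 : ℤ) : W.K) • -e₂ = hop W X + (2 : W.K) • e₂ := by
      push_cast; module
    rw [e2]
    set x' := (exp (-e₂) : Module.End W.K (W.H X)) x with hx'
    have e3 : u ((hop W X + (2 : W.K) • e₂) x') = (z + e') (u x') := by
      rw [← hN, cj_apply, h.vu]
    rw [e3]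
    have b1 : bk y (z + e') = -e' := by
      have k1 : bk e' z = (2 : W.K) • e' := by
        rw [hz, bk_add, bk_neg, bk_skew e' (hop W Y), neg_neg, hop_lie he'.2, bk_skew e' δ, hδe,
          neg_zero, add_zero]
        push_cast; rfl
      rw [hy, neg_bk, smul_bk, bk_add, bk_self, add_zero, k1, smul_smul,
        inv_mul_cancel₀ (two_ne_zero' W.K), one_smul]
    have b2 : bk y (-e') = 0 := by
      rw [hy, neg_bk, smul_bk, bk_neg, bk_self, neg_zero, smul_zero, neg_zero]
    have e4 := exp_mul_bk (K := W.K) (nil_of_hom (Or.inl rfl) hym.2) (a := z + e') (b := -e')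
      (c := 0) (by rw [← b1, bk_def]; abel) (by rw [bk_def] at b2; rw [add_zero, sub_eq_zero.1 b2])
      (by simp)
    rw [smul_zero, add_zero, add_neg_cancel_right] at e4
    have e5 := LinearMap.congr_fun e4 (u x')
    rw [Module.End.mul_apply, Module.End.mul_apply] at e5
    exact e5
  -- `δ = 0`
  have hzs : z.IsSemisimple := by
    refine ss_of_conj (T := (exp y : Module.End W.K (W.H Y)) ∘ₗ u ∘ₗ
      (exp (-e₂) : Module.End W.K (W.H X))) ?_ (fun x => (hc x).symm)
    intro b
    exact ⟨_, L.uv b⟩
  have hδz : bk (hop W Y) δ = 0 := by rw [hop_lie hδ0]; simp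
  have hcomm : Commute z (hop W Y) := by
    rw [bk_def] at hδz
    have h1 : hop W Y * δ = δ * hop W Y := sub_eq_zero.1 hδz
    change z * hop W Y = hop W Y * z
    apply LinearMap.ext
    intro x
    have h2 := LinearMap.congr_fun h1 x
    simp only [Module.End.mul_apply] at h2
    rw [hz]
    simp only [Module.End.mul_apply, LinearMap.add_apply, LinearMap.neg_apply, map_add, map_neg,
      h2]
  have hδs : δ.IsSemisimple := by
    have h1 := Module.End.IsSemisimple.add_of_commute hcomm hzs hop_ss
    have h2 : z + hop W Y = δ := by rw [hz]; abel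
    rwa [h2] at h1
  have hδ00 : δ = 0 := Module.End.eq_zero_of_isNilpotent_isSemisimple hδn hδs
  refine ⟨_, _, L, fun x => ?_⟩
  have h1 := hc x
  rw [hz, hδ00, add_zero] at h1
  exact h1

/-- The Weyl element reverses the degrees. -/
lemma exists_weyl (G : Good W X D g F) :
    ∃ S S', LieIso W X X g g S S' ∧ ∀ x, S (hop W X x) = -hop W X (S x) := by
  have hL := G.lop_mem
  have hF' : -F ∈ algP W X g (-2) := Submodule.neg_mem _ G.hF
  have L1 := lieIso_exp G.hg (Or.inl rfl) hL
  have L2 := lieIso_exp G.hg (Or.inr rfl) hF'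
  have L := (L1.trans L2).trans L1
  refine ⟨_, _, L, fun x => ?_⟩
  set L₀ := lop W X D with hL₀
  set h := hop W X with hh
  have e1 : exp L₀ * h = (h - (2 : W.K) • L₀) * exp L₀ := by
    have := exp_hop (W := W) (X := X) (Or.inl rfl) hL.2
    push_cast at this
    exact this
  have e2 : exp (-F) * h = (h - (2 : W.K) • F) * exp (-F) := by
    have := exp_hop (W := W) (X := X) (Or.inr rfl) hF'.2
    rw [this]
    congr 1
    push_cast; module
  have e3 : exp (-F) * L₀ = (L₀ + h - F) * exp (-F) := by
    have b1 : bk (-F) L₀ = h := by rw [neg_bk, bk_skew, neg_neg]; exact G.hop_eq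
    have b2 : bk (-F) h = -((2 : W.K) • F) := by
      rw [neg_bk, bk_skew, neg_neg, hop_lie G.hF.2]; push_cast; module
    have := exp_mul_bk (K := W.K) (nil_of_hom (Or.inr rfl) hF'.2) (a := L₀) (b := h)
      (c := -((2 : W.K) • F)) (by rw [← b1, bk_def]; abel) (by rw [← b2, bk_def]; abel)
      (by apply LinearMap.ext; intro x; simp)
    rw [this]
    congr 1
    rw [smul_neg, smul_smul, inv_mul_cancel₀ (two_ne_zero' W.K), one_smul, sub_eq_add_neg]
  have e4 : exp (-F) * (h - (2 : W.K) • L₀) = (-h - (2 : W.K) • L₀) * exp (-F) := by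
    rw [mul_sub, mul_smul_comm, e2, e3, ← smul_mul_assoc, ← sub_mul]
    congr 1
    module
  have e5 : exp L₀ * (-h - (2 : W.K) • L₀) = -h * exp L₀ := by
    have h1 : exp L₀ * L₀ = L₀ * exp L₀ := by
      have := exp_mul_bk (K := W.K) (nil_of_hom (Or.inl rfl) hL.2) (a := L₀) (b := 0) (c := 0)
        (by rw [add_zero]) (by simp) (by simp)
      rw [this, smul_zero, add_zero, add_zero]
    have h2 : exp L₀ * (-h - (2 : W.K) • L₀) = -(exp L₀ * h) - (2 : W.K) • (exp L₀ * L₀) := by
      apply LinearMap.ext; intro x; simp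
    rw [h2, e1, h1]
    apply LinearMap.ext; intro x; simp
  have e6 : (exp L₀ * exp (-F) * exp L₀) * h = -h * (exp L₀ * exp (-F) * exp L₀) := by
    calc (exp L₀ * exp (-F) * exp L₀) * h
        = exp L₀ * exp (-F) * (exp L₀ * h) := by rw [mul_assoc]
      _ = exp L₀ * (exp (-F) * (h - (2 : W.K) • L₀)) * exp L₀ := by
          rw [e1]; simp only [mul_assoc]
      _ = (exp L₀ * (-h - (2 : W.K) • L₀)) * exp (-F) * exp L₀ := by
          rw [e4]; simp only [mul_assoc]
      _ = -h * (exp L₀ * exp (-F) * exp L₀) := by rw [e5]; simp only [mul_assoc]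
  exact LinearMap.congr_fun e6 x

/-- **A Lie isomorphism of non-zero rank gives one of degree zero.** -/
theorem exists_graded (h : LieIso W X Y g g' u v) (G : Good W X D g F) (G' : Good W Y E g' F')
    (hr : NonzeroRank W X Y u) (hr' : NonzeroRank W Y X v) :
    ∃ T T', LieIso W X Y g g' T T' ∧ ∀ x, T (hop W X x) = hop W Y (T x) := by
  obtain ⟨T, T', hT, h1⟩ := exists_anti h G G' hr hr'
  obtain ⟨S, S', hS, h2⟩ := exists_weyl G'
  refine ⟨_, _, hT.trans hS, fun x => ?_⟩
  rw [LinearMap.comp_apply, LinearMap.comp_apply, h1, map_neg, h2, neg_neg]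

end

end Pool.Agent.N190.JM
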